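import Pool.Agent.Ramm7c.LemA

set_option autoImplicit false
open Filter Topology

namespace Pool.Agent.Ramm7c

/-- invariance directions -/
noncomputable def Inv (P : Poly3) : Submodule ℂ X3 where
  carrier := {w | ∀ v, MvPolynomial.eval (v + w) P = MvPolynomial.eval v P}
  zero_mem' := fun v => by simp
  add_mem' := by
    intro a b ha hb v
    rw [← add_assoc, hb, ha]
  smul_mem' := by
    intro c w hw v
    have hn : ∀ n : ℕ, MvPolynomial.eval (v + (n : ℂ) • w) P = MvPolynomial.eval v P := by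
      intro n
      induction n with
      | zero => simp
      | succ n ih =>
        have : v + ((n + 1 : ℕ) : ℂ) • w = (v + (n : ℂ) • w) + w := by
          push_cast; rw [add_smul, one_smul]; abel
        rw [this, hw, ih]
    have : line v w P = Polynomial.C (MvPolynomial.eval v P) := by
      apply Polynomial.eq_of_infinite_eval_eq
      apply Set.Infinite.mono (s := Set.range (fun n : ℕ => (n : ℂ)))
      · rintro _ ⟨n, rfl⟩
        show (line v w P).eval (n : ℂ) = _
        rw [eval_line, Polynomial.eval_C]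
        exact hn n
      · exact Set.infinite_range_of_injective Nat.cast_injective
    have h2 := congrArg (fun q => q.eval c) this
    simpa only [eval_line, Polynomial.eval_C] using h2

lemma mem_Inv (P : Poly3) (w : X3) :
    w ∈ Inv P ↔ ∀ v, MvPolynomial.eval (v + w) P = MvPolynomial.eval v P := Iff.rfl

lemma sh_ne_zero (w : X3) (P : Poly3) (hP : P ≠ 0) : sh w P ≠ 0 := by
  intro h
  apply hP
  apply MvPolynomial.funext
  intro x
  have := congrArg (fun q => MvPolynomial.eval (x - w) q) h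
  simpa [eval_sh] using this

lemma norm_eval_toPoly_le {d : ℕ} (a : Ix d → ℂ) (v : X3) :
    ‖MvPolynomial.eval v (toPoly a)‖ ≤ ‖a‖ * ∑ m : Ix d, ‖∏ i, v i ^ m.1 i‖ := by
  rw [eval_toPoly, Finset.mul_sum]
  refine (norm_sum_le _ _).trans (Finset.sum_le_sum fun m _ => ?_)
  rw [norm_mul]
  exact mul_le_mul_of_nonneg_right (norm_le_pi_norm a m) (norm_nonneg _)

/-- If the normalised translates converge to something of full degree, the norms are bounded. -/
lemma norms_bounded (P : Poly3) (ω : ℕ → X3) (a' : Ix P.totalDegree → ℂ)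
    (hlim : Tendsto (fun k => ((‖cf P.totalDegree (sh (ω k) P)‖⁻¹ : ℝ) : ℂ) •
      cf P.totalDegree (sh (ω k) P)) atTop (𝓝 a'))
    (hdeg : P.totalDegree ≤ (toPoly a').totalDegree) (hne : toPoly a' ≠ 0) :
    ∃ C : ℝ, ∀ k, ‖cf P.totalDegree (sh (ω k) P)‖ ≤ C := by
  obtain ⟨m, hm, hm2⟩ : ∃ m ∈ (toPoly a').support,
      (m.sum fun _ e => e) = (toPoly a').totalDegree := by
    have hne' : (toPoly a').support.Nonempty := by
      rwa [Finset.nonempty_iff_ne_empty, Ne, MvPolynomial.support_eq_empty]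
    obtain ⟨m, hm, hmax⟩ := Finset.exists_mem_eq_sup (toPoly a').support hne'
      (fun s => s.sum fun _ e => e)
    exact ⟨m, hm, hmax.symm⟩
  have hm3 : m.degree = P.totalDegree := by
    have h1 : m.degree = (m.sum fun _ e => e) := rfl
    have h2 := totalDegree_toPoly a'
    omega
  set M : Ix P.totalDegree := ⟨m, hm3.le⟩ with hM
  have ha' : a' M ≠ 0 := by
    rw [← coeff_toPoly a' M]
    exact MvPolynomial.mem_support_iff.1 hm
  have hcoef : ∀ k, cf P.totalDegree (sh (ω k) P) M = MvPolynomial.coeff m P := fun k =>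
    coeff_sh_top (ω k) P m hm3.ge
  have h1 : Tendsto (fun k => ‖cf P.totalDegree (sh (ω k) P)‖⁻¹ * ‖MvPolynomial.coeff m P‖)
      atTop (𝓝 ‖a' M‖) := by
    have := ((tendsto_pi_nhds.1 hlim) M).norm
    refine this.congr fun k => ?_
    rw [Pi.smul_apply, hcoef, norm_smul, Complex.norm_real, Real.norm_eq_abs,
      abs_of_nonneg (by positivity)]
  have hc : MvPolynomial.coeff m P ≠ 0 := by
    intro h0
    rw [h0] at h1
    simp only [norm_zero, mul_zero] at h1
    have := tendsto_nhds_unique h1 tendsto_const_nhds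
    exact ha' (norm_eq_zero.1 this)
  have h2 : Tendsto (fun k => ‖cf P.totalDegree (sh (ω k) P)‖) atTop
      (𝓝 (‖MvPolynomial.coeff m P‖ * ‖a' M‖⁻¹)) := by
    have h3 := (h1.inv₀ (norm_ne_zero_iff.2 ha')).const_mul ‖MvPolynomial.coeff m P‖
    refine h3.congr fun k => ?_
    have : ‖MvPolynomial.coeff m P‖ ≠ 0 := norm_ne_zero_iff.2 hc
    rw [mul_inv, inv_inv]
    field_simp
  obtain ⟨C, hC⟩ := h2.bddAbove_range
  exact ⟨C, fun k => hC ⟨k, rfl⟩⟩

/-- Boundedness modulo the common invariance directions. -/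
lemma bmw (G : X3 → ℂ) (hG : Continuous G) (n : ℕ) (z : X3) (P R : Poly3)
    (hP : P ≠ 0) (hR : R ≠ 0)
    (hRC : RC G n z P R)
    (hmin : ∀ P' R' : Poly3, P' ≠ 0 → R' ≠ 0 → MvPolynomial.eval 0 P' = 0 →
      MvPolynomial.eval 0 R' = 0 → RC G n z P' R' →
      P.totalDegree + R.totalDegree ≤ P'.totalDegree + R'.totalDegree) :
    ∃ C : ℝ, ∀ w, MvPolynomial.eval w P = 0 → MvPolynomial.eval (-w) R = 0 →
      ∃ w' ∈ Inv P ⊓ Inv R, ‖w - w'‖ ≤ C := by
  by_contra hcon
  push Not at hcon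
  have hk : ∀ k : ℕ, ∃ w, MvPolynomial.eval w P = 0 ∧ MvPolynomial.eval (-w) R = 0 ∧
      ∀ w' ∈ Inv P ⊓ Inv R, (k : ℝ) < ‖w - w'‖ := fun k => by
    obtain ⟨w, h1, h2, h3⟩ := hcon k
    exact ⟨w, h1, h2, h3⟩
  choose ω hω1 hω2 hω3 using hk
  have unit : ∀ (Q : Poly3) (hQ : Q ≠ 0) (x : X3),
      ‖((‖cf Q.totalDegree (sh x Q)‖⁻¹ : ℝ) : ℂ) • cf Q.totalDegree (sh x Q)‖ = 1 ∧
      toPoly (((‖cf Q.totalDegree (sh x Q)‖⁻¹ : ℝ) : ℂ) • cf Q.totalDegree (sh x Q)) =
        MvPolynomial.C ((‖cf Q.totalDegree (sh x Q)‖⁻¹ : ℝ) : ℂ) * sh x Q ∧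
      (((‖cf Q.totalDegree (sh x Q)‖⁻¹ : ℝ) : ℂ) ≠ 0) := by
    intro Q hQ x
    have h1 : toPoly (cf Q.totalDegree (sh x Q)) = sh x Q :=
      toPoly_cf _ (sh_totalDegree_le x Q)
    have h2 : cf Q.totalDegree (sh x Q) ≠ 0 := by
      intro h
      have := sh_ne_zero x Q hQ
      rw [← h1, h] at this
      apply this
      simp [toPoly]
    have h3 : ‖cf Q.totalDegree (sh x Q)‖ ≠ 0 := norm_ne_zero_iff.2 h2
    refine ⟨?_, ?_, ?_⟩
    · rw [norm_smul, Complex.norm_real, Real.norm_eq_abs, abs_of_nonneg (by positivity)]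
      exact inv_mul_cancel₀ h3
    · rw [toPoly_smul, h1]
    · exact_mod_cast inv_ne_zero h3
  set a : ℕ → (Ix P.totalDegree → ℂ) := fun k =>
    ((‖cf P.totalDegree (sh (ω k) P)‖⁻¹ : ℝ) : ℂ) • cf P.totalDegree (sh (ω k) P) with ha
  set b : ℕ → (Ix R.totalDegree → ℂ) := fun k =>
    ((‖cf R.totalDegree (sh (-ω k) R)‖⁻¹ : ℝ) : ℂ) • cf R.totalDegree (sh (-ω k) R) with hb
  obtain ⟨⟨a', b'⟩, hab', φ, hφ, hlim⟩ :=
    ((isCompact_sphere (0 : Ix P.totalDegree → ℂ) 1).prod
      (isCompact_sphere (0 : Ix R.totalDegree → ℂ) 1)).tendsto_subseq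
      (x := fun k => (a k, b k)) (fun k => ⟨mem_sphere_zero_iff_norm.2 (unit P hP (ω k)).1,
        mem_sphere_zero_iff_norm.2 (unit R hR (-ω k)).1⟩)
  have hlima : Tendsto (a ∘ φ) atTop (𝓝 a') :=
    (continuous_fst.tendsto _).comp hlim
  have hlimb : Tendsto (b ∘ φ) atTop (𝓝 b') :=
    (continuous_snd.tendsto _).comp hlim
  have ha'0 : a' ≠ 0 := by
    intro h; have := hab'.1; rw [h] at this; simp at this
  have hb'0 : b' ≠ 0 := by
    intro h; have := hab'.2; rw [h] at this; simp at this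
  have hRC' : RC G n z (toPoly a') (toPoly b') := by
    apply RC_lim G hG n z (a ∘ φ) a' ha'0 hlima (b ∘ φ) b' hb'0 hlimb
    intro k
    simp only [Function.comp_apply, ha, hb]
    rw [(unit P hP (ω (φ k))).2.1, (unit R hR (-ω (φ k))).2.1]
    exact RC_smul G n z _ _ (RC_translate G n z P R hRC (ω (φ k))) _ _
      (unit P hP (ω (φ k))).2.2 (unit R hR (-ω (φ k))).2.2
  have ev0a : MvPolynomial.eval 0 (toPoly a') = 0 := by
    have h1 : Tendsto (fun k => MvPolynomial.eval 0 (toPoly (a (φ k)))) atTop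
        (𝓝 (MvPolynomial.eval 0 (toPoly a'))) := by
      simp only [eval_toPoly]
      exact tendsto_finsetSum _ (fun m _ => ((tendsto_pi_nhds.1 hlima) m).mul_const _)
    refine tendsto_nhds_unique h1 ?_
    refine tendsto_const_nhds.congr fun k => ?_
    simp only [ha]
    rw [(unit P hP (ω (φ k))).2.1, map_mul, eval_sh, zero_add, hω1, mul_zero]
  have ev0b : MvPolynomial.eval 0 (toPoly b') = 0 := by
    have h1 : Tendsto (fun k => MvPolynomial.eval 0 (toPoly (b (φ k)))) atTop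
        (𝓝 (MvPolynomial.eval 0 (toPoly b'))) := by
      simp only [eval_toPoly]
      exact tendsto_finsetSum _ (fun m _ => ((tendsto_pi_nhds.1 hlimb) m).mul_const _)
    refine tendsto_nhds_unique h1 ?_
    refine tendsto_const_nhds.congr fun k => ?_
    simp only [hb]
    rw [(unit R hR (-ω (φ k))).2.1, map_mul, eval_sh, zero_add, hω2, mul_zero]
  have hdeg := hmin _ _ (toPoly_ne_zero a' ha'0) (toPoly_ne_zero b' hb'0) ev0a ev0b hRC'
  have hda := totalDegree_toPoly a'
  have hdb := totalDegree_toPoly b'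
  obtain ⟨CP, hCP⟩ := norms_bounded P (ω ∘ φ) a' hlima (by omega) (toPoly_ne_zero a' ha'0)
  obtain ⟨CR, hCR⟩ := norms_bounded R (fun k => -ω (φ k)) b' hlimb (by omega)
    (toPoly_ne_zero b' hb'0)
  -- bounded translates
  have hBP : BddT (ω ∘ φ) P := by
    intro v
    refine ⟨CP * ∑ m : Ix P.totalDegree, ‖∏ i, v i ^ m.1 i‖, fun k => ?_⟩
    have h1 : MvPolynomial.eval ((ω ∘ φ) k + v) P =
        MvPolynomial.eval v (toPoly (cf P.totalDegree (sh ((ω ∘ φ) k) P))) := by
      rw [toPoly_cf _ (sh_totalDegree_le _ P), eval_sh, add_comm]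
    rw [h1]
    refine (norm_eval_toPoly_le _ _).trans ?_
    exact mul_le_mul_of_nonneg_right (hCP k) (Finset.sum_nonneg fun _ _ => norm_nonneg _)
  set R' : Poly3 := MvPolynomial.aeval (fun i => -MvPolynomial.X i) R with hR'
  have hR'e : ∀ v, MvPolynomial.eval v R' = MvPolynomial.eval (-v) R := by
    intro v
    have : ((MvPolynomial.aeval v : Poly3 →ₐ[ℂ] ℂ).comp
        (MvPolynomial.aeval (fun i => -MvPolynomial.X i))) =
        (MvPolynomial.aeval (-v) : Poly3 →ₐ[ℂ] ℂ) := by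
      apply MvPolynomial.algHom_ext
      intro i
      simp
    have h2 := congrArg (fun g => g R) this
    simpa [MvPolynomial.aeval_eq_eval, hR'] using h2
  have hBR : BddT (ω ∘ φ) R' := by
    intro v
    refine ⟨CR * ∑ m : Ix R.totalDegree, ‖∏ i, (-v) i ^ m.1 i‖, fun k => ?_⟩
    have h1 : MvPolynomial.eval ((ω ∘ φ) k + v) R' =
        MvPolynomial.eval (-v) (toPoly (cf R.totalDegree (sh (-ω (φ k)) R))) := by
      rw [toPoly_cf _ (sh_totalDegree_le _ R), eval_sh, hR'e]
      congr 1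
      simp only [Function.comp_apply]
      abel_nf
    rw [h1]
    refine (norm_eval_toPoly_le _ _).trans ?_
    exact mul_le_mul_of_nonneg_right (hCR k) (Finset.sum_nonneg fun _ _ => norm_nonneg _)
  have hWle : WW (ω ∘ φ) ≤ Inv P ⊓ Inv R := by
    intro w hw
    refine ⟨?_, ?_⟩
    · exact fun v => lemA (ω ∘ φ) _ P le_rfl hBP w hw v
    · have h1 : -w ∈ Inv R := by
        intro v
        have := lemA (ω ∘ φ) _ R' le_rfl hBR w hw (-v)
        rw [hR'e, hR'e] at this
        rw [neg_neg] at this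
        rw [← this]
        congr 1
        abel_nf
      simpa using (Inv R).neg_mem h1
  obtain ⟨W', hW'⟩ := Submodule.exists_isCompl (WW (ω ∘ φ))
  obtain ⟨C, hC⟩ := bounded_mod (ω ∘ φ) W' hW'
  obtain ⟨k, hk⟩ := exists_nat_gt C
  have hdec := Submodule.projection_add_projection_eq_self hW'.symm ((ω ∘ φ) k)
  have hmem : (WW (ω ∘ φ)).projection W' hW' ((ω ∘ φ) k) ∈ Inv P ⊓ Inv R := by
    apply hWle
    rw [Submodule.projection_apply]; exact Submodule.coe_mem _
  have h1 := hω3 (φ k) _ hmem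
  have h2 : ω (φ k) - (WW (ω ∘ φ)).projection W' hW' ((ω ∘ φ) k) =
      W'.projection (WW (ω ∘ φ)) hW'.symm ((ω ∘ φ) k) := by
    rw [sub_eq_iff_eq_add]; exact hdec.symm
  rw [h2] at h1
  have h3 := hC k
  have h4 : (k : ℝ) ≤ (φ k : ℝ) := by exact_mod_cast hφ.id_le k
  linarith

end Pool.Agent.Ramm7c
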