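import Pool.Agent.Ramm7c.Unbdd

set_option autoImplicit false
open Filter Topology

namespace Pool.Agent.Ramm7c

/-- exponents of degree at most `d` -/
abbrev Ix (d : ℕ) := {m : Fin 3 →₀ ℕ // m.degree ≤ d}

noncomputable instance (d : ℕ) : Fintype (Ix d) := (Finsupp.finite_of_degree_le d).fintype

noncomputable def toPoly {d : ℕ} (a : Ix d → ℂ) : Poly3 :=
  ∑ m : Ix d, MvPolynomial.monomial m.1 (a m)

noncomputable def cf (d : ℕ) (P : Poly3) : Ix d → ℂ := fun m => MvPolynomial.coeff m.1 P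

lemma coeff_toPoly {d : ℕ} (a : Ix d → ℂ) (m : Ix d) :
    MvPolynomial.coeff m.1 (toPoly a) = a m := by
  classical
  rw [toPoly, MvPolynomial.coeff_sum]
  simp only [MvPolynomial.coeff_monomial]
  rw [Finset.sum_eq_single m]
  · simp
  · intro b _ hb
    rw [if_neg]
    intro h
    exact hb (Subtype.ext h)
  · intro h; exact absurd (Finset.mem_univ m) h

lemma totalDegree_toPoly {d : ℕ} (a : Ix d → ℂ) : (toPoly a).totalDegree ≤ d := by
  apply MvPolynomial.totalDegree_finsetSum_le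
  intro m _
  refine (MvPolynomial.totalDegree_monomial_le _ _).trans ?_
  exact m.2

lemma toPoly_cf {d : ℕ} (P : Poly3) (hP : P.totalDegree ≤ d) : toPoly (cf d P) = P := by
  classical
  ext m
  by_cases hm : m.degree ≤ d
  · exact coeff_toPoly (cf d P) ⟨m, hm⟩
  · rw [MvPolynomial.coeff_eq_zero_of_totalDegree_lt, MvPolynomial.coeff_eq_zero_of_totalDegree_lt]
    · exact lt_of_le_of_lt hP (not_le.1 hm)
    · exact lt_of_le_of_lt (totalDegree_toPoly _) (not_le.1 hm)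

lemma toPoly_smul {d : ℕ} (c : ℂ) (a : Ix d → ℂ) : toPoly (c • a) = MvPolynomial.C c * toPoly a := by
  simp only [toPoly, Pi.smul_apply, smul_eq_mul, Finset.mul_sum, MvPolynomial.C_mul_monomial]

lemma toPoly_ne_zero {d : ℕ} (a : Ix d → ℂ) (ha : a ≠ 0) : toPoly a ≠ 0 := by
  intro h
  apply ha
  funext m
  rw [← coeff_toPoly a m, h]; simp

lemma eval_toPoly {d : ℕ} (a : Ix d → ℂ) (x : X3) :
    MvPolynomial.eval x (toPoly a) = ∑ m : Ix d, a m * ∏ i, x i ^ m.1 i := by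
  rw [toPoly, map_sum]
  refine Finset.sum_congr rfl fun m _ => ?_
  rw [MvPolynomial.eval_monomial, Finsupp.prod_fintype _ _ (fun i => pow_zero _)]

lemma continuous_eval_toPoly (d : ℕ) :
    Continuous (fun p : (Ix d → ℂ) × X3 => MvPolynomial.eval p.2 (toPoly p.1)) := by
  simp only [eval_toPoly]
  fun_prop

/-- zeros of limits are limits of zeros -/
lemma zero_persist {ι : Type*} (l : Filter ι) {d : ℕ} (a : ι → (Ix d → ℂ)) (b : Ix d → ℂ)
    (hb : b ≠ 0) (hab : Tendsto a l (𝓝 b)) (v : X3) (hv : MvPolynomial.eval v (toPoly b) = 0)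
    (δ : ℝ) (hδ : 0 < δ) :
    ∀ᶠ i in l, ∃ v' : X3, ‖v' - v‖ < δ ∧ MvPolynomial.eval v' (toPoly (a i)) = 0 := by
  obtain ⟨x, hx⟩ : ∃ x : X3, MvPolynomial.eval x (toPoly b) ≠ 0 := by
    by_contra hcon
    push Not at hcon
    exact toPoly_ne_zero b hb (MvPolynomial.funext (by simpa using hcon))
  have hten : ∀ y : X3, Tendsto (fun i => MvPolynomial.eval y (toPoly (a i))) l
      (𝓝 (MvPolynomial.eval y (toPoly b))) := by
    intro y
    simp only [eval_toPoly]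
    exact tendsto_finsetSum _ (fun m _ => ((tendsto_pi_nhds.1 hab) m).mul_const _)
  have hδ' : 0 < δ / (‖x - v‖ + 1) := by positivity
  have := root_persist l (fun i => line v (x - v) (toPoly (a i))) d
    (Eventually.of_forall fun i => (natDegree_line_le _ _ _).trans (totalDegree_toPoly _)) 1
    (MvPolynomial.eval x (toPoly b)) hx
    (by
      simp only [eval_line, zero_smul, add_zero]
      rw [← hv]; exact hten v)
    (by
      simp only [eval_line, one_smul, add_sub_cancel]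
      exact hten x) _ hδ'
  filter_upwards [this] with i hi
  obtain ⟨r, hr, hr2⟩ := hi
  refine ⟨v + r • (x - v), ?_, by rwa [eval_line] at hr2⟩
  rw [add_sub_cancel_left, norm_smul]
  have h1 : ‖r‖ * ‖x - v‖ ≤ ‖r‖ * (‖x - v‖ + 1) := by
    apply mul_le_mul_of_nonneg_left (by linarith) (norm_nonneg _)
  have h2 : ‖r‖ * (‖x - v‖ + 1) < δ := by
    rwa [lt_div_iff₀ (by positivity)] at hr
  linarith

/-- The rank condition. -/
def RC (G : X3 → ℂ) (n : ℕ) (z : X3) (P R : Poly3) : Prop :=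
  ∀ v : Fin (n+1) → X3, (∀ i, MvPolynomial.eval (v i) P = 0) →
    ∃ α : Fin (n+1) → ℂ, ‖α‖ = 1 ∧
      ∀ w, MvPolynomial.eval w R = 0 → ∑ i, α i * G (z + v i + w) = 0

lemma RC_lim (G : X3 → ℂ) (hG : Continuous G) (n : ℕ) (z : X3) {d e : ℕ}
    (a : ℕ → (Ix d → ℂ)) (a' : Ix d → ℂ) (ha : a' ≠ 0) (haa : Tendsto a atTop (𝓝 a'))
    (b : ℕ → (Ix e → ℂ)) (b' : Ix e → ℂ) (hb : b' ≠ 0) (hbb : Tendsto b atTop (𝓝 b'))
    (h : ∀ k, RC G n z (toPoly (a k)) (toPoly (b k))) :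
    RC G n z (toPoly a') (toPoly b') := by
  intro v hv
  -- approximating zeros
  have h1 : ∀ j : ℕ, ∀ᶠ k in atTop, ∃ v' : Fin (n+1) → X3,
      (∀ i, ‖v' i - v i‖ < 1 / ((j:ℝ) + 1)) ∧
      ∀ i, MvPolynomial.eval (v' i) (toPoly (a k)) = 0 := by
    intro j
    have : ∀ i, ∀ᶠ k in atTop, ∃ v' : X3, ‖v' - v i‖ < 1 / ((j:ℝ) + 1) ∧
        MvPolynomial.eval v' (toPoly (a k)) = 0 := fun i =>
      zero_persist atTop a a' ha haa (v i) (hv i) _ (by positivity)
    have h2 := eventually_all.2 this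
    filter_upwards [h2] with k hk
    choose v' hv' using hk
    exact ⟨v', fun i => (hv' i).1, fun i => (hv' i).2⟩
  obtain ⟨φ, hφ, hφ2⟩ := extraction_forall_of_eventually h1
  choose v' hv1 hv2 using hφ2
  have h3 : ∀ j, ∃ α : Fin (n+1) → ℂ, ‖α‖ = 1 ∧
      ∀ w, MvPolynomial.eval w (toPoly (b (φ j))) = 0 → ∑ i, α i * G (z + v' j i + w) = 0 :=
    fun j => h (φ j) (v' j) (hv2 j)
  choose α hα1 hα2 using h3
  obtain ⟨α', hα'1, ψ, hψ, hψ2⟩ := (isCompact_sphere (0 : Fin (n+1) → ℂ) 1).tendsto_subseq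
    (fun j => by simpa using hα1 j : ∀ j, α j ∈ Metric.sphere (0 : Fin (n+1) → ℂ) 1)
  refine ⟨α', by simpa using hα'1, ?_⟩
  intro w hw
  have hvt : Tendsto v' atTop (𝓝 v) := by
    rw [tendsto_pi_nhds]
    intro i
    rw [tendsto_iff_norm_sub_tendsto_zero]
    refine squeeze_zero (fun _ => norm_nonneg _) (fun j => (hv1 j i).le) ?_
    exact tendsto_one_div_add_atTop_nhds_zero_nat
  have hvt' : Tendsto (v' ∘ ψ) atTop (𝓝 v) := hvt.comp hψ.tendsto_atTop
  have hbt : Tendsto (fun j => b (φ (ψ j))) atTop (𝓝 b') :=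
    hbb.comp (hφ.tendsto_atTop.comp hψ.tendsto_atTop)
  by_contra hne
  set Φ : (Fin (n+1) → ℂ) × (Fin (n+1) → X3) × X3 → ℂ :=
    fun p => ∑ i, p.1 i * G (z + p.2.1 i + p.2.2) with hΦ
  have hΦc : Continuous Φ := by
    simp only [hΦ]
    fun_prop
  have hopen : {p | Φ p ≠ 0} ∈ 𝓝 (α', v, w) :=
    (hΦc.isOpen_preimage _ isOpen_compl_singleton).mem_nhds hne
  rw [nhds_prod_eq, nhds_prod_eq, mem_prod_iff] at hopen
  obtain ⟨U1, hU1, U23, hU23, hsub⟩ := hopen
  rw [mem_prod_iff] at hU23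
  obtain ⟨U2, hU2, U3, hU3, hsub2⟩ := hU23
  obtain ⟨δ, hδ, hball⟩ := Metric.mem_nhds_iff.1 hU3
  have e1 := hψ2.eventually hU1
  have e2 := hvt'.eventually hU2
  have e3 := zero_persist atTop (fun j => b (φ (ψ j))) b' hb hbt w hw δ hδ
  obtain ⟨j, hj1, hj2, w', hw'1, hw'2⟩ := (e1.and (e2.and e3)).exists
  have hmem : ((α (ψ j), v' (ψ j), w') : (Fin (n+1) → ℂ) × (Fin (n+1) → X3) × X3) ∈
      {p | Φ p ≠ 0} := by
    apply hsub
    refine ⟨hj1, hsub2 ⟨hj2, hball ?_⟩⟩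
    rw [Metric.mem_ball, dist_eq_norm]; exact hw'1
  exact hmem (hα2 (ψ j) w' hw'2)

lemma RC_translate (G : X3 → ℂ) (n : ℕ) (z : X3) (P R : Poly3) (h : RC G n z P R) (w : X3) :
    RC G n z (sh w P) (sh (-w) R) := by
  intro v hv
  obtain ⟨α, h1, h2⟩ := h (fun i => v i + w) (fun i => by rw [← eval_sh]; exact hv i)
  refine ⟨α, h1, fun w' hw' => ?_⟩
  have := h2 (w' + -w) (by rw [← eval_sh]; exact hw')
  rw [← this]
  refine Finset.sum_congr rfl fun i _ => ?_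
  congr 2
  abel

lemma RC_smul (G : X3 → ℂ) (n : ℕ) (z : X3) (P R : Poly3) (h : RC G n z P R) (c c' : ℂ)
    (hc : c ≠ 0) (hc' : c' ≠ 0) :
    RC G n z (MvPolynomial.C c * P) (MvPolynomial.C c' * R) := by
  intro v hv
  obtain ⟨α, h1, h2⟩ := h v (fun i => by
    have := hv i
    rw [map_mul, MvPolynomial.eval_C, mul_eq_zero] at this
    exact this.resolve_left hc)
  refine ⟨α, h1, fun w' hw' => h2 w' ?_⟩
  rw [map_mul, MvPolynomial.eval_C, mul_eq_zero] at hw'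
  exact hw'.resolve_left hc'

end Pool.Agent.Ramm7c
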