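import Mathlib

set_option autoImplicit false
open Filter Topology

namespace Pool.Agent.Ramm7c

abbrev X3 := Fin 3 → ℂ
abbrev Poly3 := MvPolynomial (Fin 3) ℂ

/-- translation of polynomials -/
noncomputable def sh (h : X3) : Poly3 →ₐ[ℂ] Poly3 :=
  MvPolynomial.aeval (fun i => MvPolynomial.X i + MvPolynomial.C (h i))

lemma eval_sh (h v : X3) (P : Poly3) :
    MvPolynomial.eval v (sh h P) = MvPolynomial.eval (v + h) P := by
  have : ((MvPolynomial.aeval v : Poly3 →ₐ[ℂ] ℂ).comp (sh h)) =
      (MvPolynomial.aeval (v + h) : Poly3 →ₐ[ℂ] ℂ) := by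
    apply MvPolynomial.algHom_ext
    intro i
    simp [sh]
  have h2 := congrArg (fun g => g P) this
  simpa [MvPolynomial.aeval_eq_eval] using h2

/-- one-variable restriction of a polynomial to a line -/
noncomputable def line (v e : X3) (P : Poly3) : Polynomial ℂ :=
  MvPolynomial.aeval (fun i => Polynomial.C (v i) + Polynomial.C (e i) * Polynomial.X) P

lemma eval_line (v e : X3) (P : Poly3) (s : ℂ) :
    (line v e P).eval s = MvPolynomial.eval (v + s • e) P := by
  have : ((Polynomial.aeval s : Polynomial ℂ →ₐ[ℂ] ℂ).comp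
      (MvPolynomial.aeval (fun i => Polynomial.C (v i) + Polynomial.C (e i) * Polynomial.X))) =
      (MvPolynomial.aeval (v + s • e) : Poly3 →ₐ[ℂ] ℂ) := by
    apply MvPolynomial.algHom_ext
    intro i
    rw [AlgHom.comp_apply, MvPolynomial.aeval_X, MvPolynomial.aeval_X]
    simp only [map_add, map_mul, Polynomial.aeval_C, Polynomial.aeval_X, Pi.add_apply,
      Pi.smul_apply, smul_eq_mul, Algebra.algebraMap_self, RingHom.id_apply]
    ring
  have h2 := congrArg (fun g => g P) this
  simpa [MvPolynomial.aeval_eq_eval, line] using h2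

/-- product of linear forms estimates -/
lemma natDegree_aeval_le {A : Type*} [CommRing A] [Algebra ℂ A] (g : Fin 3 → Polynomial A)
    (hg : ∀ i, (g i).natDegree ≤ 1) (P : Poly3) :
    (MvPolynomial.aeval g P).natDegree ≤ P.totalDegree := by
  classical
  rw [MvPolynomial.aeval_def, MvPolynomial.eval₂_eq']
  apply Polynomial.natDegree_sum_le_of_forall_le
  intro m hm
  have h1 : (∏ i, g i ^ m i).natDegree ≤ ∑ i, m i := by
    refine (Polynomial.natDegree_prod_le _ _).trans (Finset.sum_le_sum fun i _ => ?_)
    refine (Polynomial.natDegree_pow_le).trans ?_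
    calc m i * (g i).natDegree ≤ m i * 1 := Nat.mul_le_mul_left _ (hg i)
      _ = m i := mul_one _
  have h2 : ∑ i, m i ≤ P.totalDegree := by
    have := MvPolynomial.le_totalDegree hm
    rwa [Finsupp.sum_fintype _ _ (fun _ => rfl)] at this
  refine (Polynomial.natDegree_mul_le).trans ?_
  have h3 : (algebraMap ℂ (Polynomial A) (MvPolynomial.coeff m P)).natDegree = 0 := by
    rw [Polynomial.algebraMap_apply]
    exact Polynomial.natDegree_C _
  omega

lemma natDegree_line_le (v e : X3) (P : Poly3) : (line v e P).natDegree ≤ P.totalDegree := by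
  apply natDegree_aeval_le
  intro i
  refine (Polynomial.natDegree_add_le _ _).trans ?_
  simp only [Polynomial.natDegree_C]
  refine max_le (by norm_num) ?_
  exact (Polynomial.natDegree_C_mul_le _ _).trans Polynomial.natDegree_X_le

/-- Key degree lemma for translations. -/
lemma sh_monomial (h : X3) : ∀ (k : ℕ) (m : Fin 3 →₀ ℕ), m.degree = k →
    (sh h (MvPolynomial.monomial m 1)).totalDegree ≤ k ∧
    (k = 0 → sh h (MvPolynomial.monomial m 1) = MvPolynomial.monomial m 1) ∧
    (sh h (MvPolynomial.monomial m 1) - MvPolynomial.monomial m 1).totalDegree ≤ k - 1 := by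
  intro k
  induction k with
  | zero =>
    intro m hm
    have : m = 0 := by
      rwa [Finsupp.degree_eq_zero_iff] at hm
    subst this
    simp
  | succ k ih =>
    intro m hm
    have hne : m ≠ 0 := by
      rintro rfl; simp at hm
    obtain ⟨i, hi⟩ := Finsupp.ne_iff.1 hne
    simp only [Finsupp.coe_zero, Pi.zero_apply] at hi
    obtain ⟨m', hm'⟩ : ∃ m' : Fin 3 →₀ ℕ, m = Finsupp.single i 1 + m' := by
      refine ⟨m - Finsupp.single i 1, ?_⟩
      rw [add_tsub_cancel_of_le]
      rw [Finsupp.single_le_iff]
      omega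
    have hdeg : m'.degree = k := by
      rw [hm', map_add, Finsupp.degree_single] at hm
      omega
    obtain ⟨i1, i2, i3⟩ := ih m' hdeg
    have hmon : (MvPolynomial.monomial m (1:ℂ) : Poly3) =
        MvPolynomial.X i * MvPolynomial.monomial m' 1 := by
      rw [hm', MvPolynomial.X, MvPolynomial.monomial_mul, one_mul]
    have hX : sh h (MvPolynomial.X i) = MvPolynomial.X i + MvPolynomial.C (h i) := by simp [sh]
    have htX : (MvPolynomial.X i + MvPolynomial.C (h i) : Poly3).totalDegree ≤ 1 := by
      refine (MvPolynomial.totalDegree_add _ _).trans ?_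
      simp
    have htm : (MvPolynomial.monomial m' (1:ℂ) : Poly3).totalDegree ≤ k := by
      refine (MvPolynomial.totalDegree_monomial_le _ _).trans ?_
      rw [← hdeg, Finsupp.degree_eq_sum, Finsupp.sum_fintype _ _ (fun _ => rfl)]
      exact le_of_eq rfl
    refine ⟨?_, by intro h0; omega, ?_⟩
    · rw [hmon, map_mul, hX]
      refine (MvPolynomial.totalDegree_mul _ _).trans ?_
      omega
    · rw [hmon, map_mul, hX]
      have : (MvPolynomial.X i + MvPolynomial.C (h i) : Poly3) * sh h (MvPolynomial.monomial m' 1)
          - MvPolynomial.X i * MvPolynomial.monomial m' 1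
          = MvPolynomial.C (h i) * sh h (MvPolynomial.monomial m' 1) +
            MvPolynomial.X i * (sh h (MvPolynomial.monomial m' 1) - MvPolynomial.monomial m' 1) := by
        ring
      rw [this]
      refine (MvPolynomial.totalDegree_add _ _).trans (max_le ?_ ?_)
      · refine (MvPolynomial.totalDegree_mul _ _).trans ?_
        simp only [MvPolynomial.totalDegree_C]
        omega
      · by_cases hk : k = 0
        · rw [i2 hk, sub_self, mul_zero]; simp
        · refine (MvPolynomial.totalDegree_mul _ _).trans ?_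
          rw [MvPolynomial.totalDegree_X]
          omega

lemma sh_sub_totalDegree (h : X3) (P : Poly3) :
    (sh h P - P).totalDegree ≤ P.totalDegree - 1 := by
  classical
  have hsum : sh h P - P = ∑ m ∈ P.support, MvPolynomial.C (MvPolynomial.coeff m P) *
      (sh h (MvPolynomial.monomial m 1) - MvPolynomial.monomial m 1) := by
    conv_lhs => rw [P.as_sum]
    rw [map_sum, ← Finset.sum_sub_distrib]
    refine Finset.sum_congr rfl fun m _ => ?_
    have : (MvPolynomial.monomial m (MvPolynomial.coeff m P) : Poly3) =
        MvPolynomial.C (MvPolynomial.coeff m P) * MvPolynomial.monomial m 1 := by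
      rw [MvPolynomial.C_mul_monomial, mul_one]
    rw [this, map_mul, mul_sub]
    congr 2
    simp [sh]
  rw [hsum]
  apply MvPolynomial.totalDegree_finsetSum_le
  intro m hm
  have h2 : m.degree ≤ P.totalDegree := by
    have := MvPolynomial.le_totalDegree hm
    rwa [Finsupp.degree_eq_sum, ← Finsupp.sum_fintype (f := m) (g := fun _ e => e)
      (h := fun _ => rfl)]
  refine (MvPolynomial.totalDegree_mul _ _).trans ?_
  have := (sh_monomial h _ m rfl).2.2
  simp only [MvPolynomial.totalDegree_C]
  omega

lemma sh_totalDegree_le (h : X3) (P : Poly3) : (sh h P).totalDegree ≤ P.totalDegree := by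
  have : sh h P = (sh h P - P) + P := by ring
  rw [this]
  refine (MvPolynomial.totalDegree_add _ _).trans (max_le ?_ le_rfl)
  exact (sh_sub_totalDegree h P).trans (Nat.sub_le _ _)

lemma sh_eq_of_totalDegree_zero (h : X3) (P : Poly3) (hP : P.totalDegree = 0) : sh h P = P := by
  rw [MvPolynomial.totalDegree_eq_zero_iff_eq_C] at hP
  rw [hP]; simp [sh]

lemma coeff_sh_top (h : X3) (P : Poly3) (m : Fin 3 →₀ ℕ) (hm : P.totalDegree ≤ m.degree) :
    MvPolynomial.coeff m (sh h P) = MvPolynomial.coeff m P := by
  by_cases h0 : P.totalDegree = 0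
  · rw [sh_eq_of_totalDegree_zero h P h0]
  · have h1 := sh_sub_totalDegree h P
    have : MvPolynomial.coeff m (sh h P - P) = 0 := by
      apply MvPolynomial.coeff_eq_zero_of_totalDegree_lt
      have : m.degree = ∑ i ∈ m.support, m i := rfl
      omega
    rw [MvPolynomial.coeff_sub, sub_eq_zero] at this
    exact this

end Pool.Agent.Ramm7c
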