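import Pool.Agent.Ramm7c.Root
import Pool.Agent.Ramm7c.Poly

set_option autoImplicit false
open Filter Topology Polynomial

namespace Pool.Agent.Ramm7c

/-- top homogeneous form evaluated at `a` -/
noncomputable def topForm (P : Poly3) (a : X3) : ℂ :=
  MvPolynomial.eval a (MvPolynomial.homogeneousComponent P.totalDegree P)

lemma exists_topForm_ne_zero (P : Poly3) (hP : P ≠ 0) : ∃ a : X3, topForm P a ≠ 0 := by
  by_contra hcon
  push Not at hcon
  have h1 : MvPolynomial.homogeneousComponent P.totalDegree P = 0 := by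
    apply MvPolynomial.funext
    intro x
    simpa [topForm] using hcon x
  obtain ⟨m, hm, hm2⟩ : ∃ m ∈ P.support, (m.sum fun _ e => e) = P.totalDegree := by
    have hne : P.support.Nonempty := by
      rwa [Finset.nonempty_iff_ne_empty, Ne, MvPolynomial.support_eq_empty]
    obtain ⟨m, hm, hmax⟩ := Finset.exists_mem_eq_sup P.support hne (fun s => s.sum fun _ e => e)
    exact ⟨m, hm, hmax.symm⟩
  have h2 : MvPolynomial.coeff m (MvPolynomial.homogeneousComponent P.totalDegree P) =
      MvPolynomial.coeff m P := by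
    rw [MvPolynomial.coeff_homogeneousComponent, if_pos]
    rw [← hm2]; rfl
  rw [h1] at h2
  exact (MvPolynomial.mem_support_iff.1 hm) (by simpa using h2.symm)

lemma coeff_aeval_top {A : Type*} [CommRing A] [Algebra ℂ A] (α β : Fin 3 → A) (P : Poly3) :
    (MvPolynomial.aeval (fun i => C (α i) + C (β i) * X) P : A[X]).coeff P.totalDegree =
      MvPolynomial.aeval β (MvPolynomial.homogeneousComponent P.totalDegree P) := by
  classical
  have hmon : ∀ m : Fin 3 →₀ ℕ,
      (∏ i, (C (α i) + C (β i) * X : A[X]) ^ m i).coeff (∑ i, m i) = ∏ i, β i ^ m i ∧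
      (∏ i, (C (α i) + C (β i) * X : A[X]) ^ m i).natDegree ≤ ∑ i, m i := by
    intro m
    have hd : ∀ i, (C (α i) + C (β i) * X : A[X]).natDegree ≤ 1 := fun i => by
      refine (natDegree_add_le _ _).trans ?_
      simp only [natDegree_C]
      exact max_le (by norm_num) ((natDegree_C_mul_le _ _).trans natDegree_X_le)
    have hc : ∀ i, (C (α i) + C (β i) * X : A[X]).coeff 1 = β i := fun i => by simp
    have hp : ∀ i, ((C (α i) + C (β i) * X : A[X]) ^ m i).coeff (m i) = β i ^ m i := fun i => by
      have := coeff_pow_of_natDegree_le (m := m i) (hd i)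
      rwa [mul_one, hc] at this
    have hpd : ∀ i, ((C (α i) + C (β i) * X : A[X]) ^ m i).natDegree ≤ m i := fun i => by
      refine natDegree_pow_le.trans ?_
      calc _ ≤ m i * 1 := Nat.mul_le_mul_left _ (hd i)
        _ = m i := mul_one _
    rw [Fin.prod_univ_three, Fin.sum_univ_three, Fin.prod_univ_three]
    have h01 : ((C (α 0) + C (β 0) * X : A[X]) ^ m 0 * (C (α 1) + C (β 1) * X : A[X]) ^ m 1).natDegree
        ≤ m 0 + m 1 := (natDegree_mul_le).trans (add_le_add (hpd 0) (hpd 1))
    constructor
    · rw [coeff_mul_add_eq_of_natDegree_le h01 (hpd 2),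
        coeff_mul_add_eq_of_natDegree_le (hpd 0) (hpd 1), hp, hp, hp]
    · exact (natDegree_mul_le).trans (add_le_add h01 (hpd 2))
  rw [MvPolynomial.aeval_def, MvPolynomial.eval₂_eq', finsetSum_coeff]
  have hR : (MvPolynomial.aeval β (MvPolynomial.homogeneousComponent P.totalDegree P) : A) =
      ∑ m ∈ P.support, if m.degree = P.totalDegree then
        algebraMap ℂ A (MvPolynomial.coeff m P) * ∏ i, β i ^ m i else 0 := by
    rw [MvPolynomial.homogeneousComponent_apply, map_sum, Finset.sum_filter]
    refine Finset.sum_congr rfl fun m _ => ?_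
    split_ifs with h
    · rw [MvPolynomial.aeval_monomial, Finsupp.prod_fintype _ _ (fun i => pow_zero _)]
    · rfl
  rw [hR]
  refine Finset.sum_congr rfl fun m hm => ?_
  have hle : m.degree ≤ P.totalDegree := by
    have := MvPolynomial.le_totalDegree hm
    rwa [Finsupp.degree_eq_sum, ← Finsupp.sum_fintype (f := m) (g := fun _ e => e)
      (h := fun _ => rfl)]
  have hds : m.degree = ∑ i, m i := Finsupp.degree_eq_sum m
  rw [Polynomial.algebraMap_apply, coeff_C_mul]
  split_ifs with h
  · rw [← h, hds, (hmon m).1]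
  · rw [coeff_eq_zero_of_natDegree_lt, mul_zero]
    have := (hmon m).2
    omega

/-- evaluation at `(t,u)` -/
noncomputable def evTU (t u : ℂ) : (ℂ[X])[X] →+* ℂ :=
  (evalRingHom t).comp (mapRingHom (evalRingHom u))

/-- the polynomial `s ↦ P(d + s a + t b + u c)` -/
noncomputable def tri (a b c d : X3) (P : Poly3) : ((ℂ[X])[X])[X] :=
  MvPolynomial.aeval
    (fun i => C (C (C (d i) + C (c i) * X) + C (C (b i)) * X) + C (C (C (a i))) * X) P

lemma eval_tri (a b c d : X3) (P : Poly3) (s t u : ℂ) :
    ((tri a b c d P).map (evTU t u)).eval s =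
      MvPolynomial.eval (d + s • a + t • b + u • c) P := by
  have : ((evalRingHom s).comp (mapRingHom (evTU t u))).comp
      (MvPolynomial.aeval
        (fun i => C (C (C (d i) + C (c i) * X) + C (C (b i)) * X) + C (C (C (a i))) * X) :
        Poly3 →ₐ[ℂ] ((ℂ[X])[X])[X]).toRingHom =
      (MvPolynomial.eval (d + s • a + t • b + u • c) : Poly3 →+* ℂ) := by
    apply MvPolynomial.ringHom_ext
    · intro r
      simp [evTU, Polynomial.algebraMap_apply]
    · intro i
      simp only [RingHom.comp_apply, AlgHom.toRingHom_eq_coe, RingHom.coe_coe,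
        MvPolynomial.aeval_X, MvPolynomial.eval_X, coe_mapRingHom, coe_evalRingHom,
        Polynomial.map_add, Polynomial.map_mul, map_C, map_X, eval_add, eval_mul, eval_C, eval_X,
        evTU, Pi.add_apply, Pi.smul_apply, smul_eq_mul]
      ring
  have h2 := congrArg (fun g => g P) this
  simpa [tri] using h2

lemma tri_natDegree_le (a b c d : X3) (P : Poly3) :
    (tri a b c d P).natDegree ≤ P.totalDegree := by
  apply natDegree_aeval_le
  intro i
  refine (natDegree_add_le _ _).trans ?_
  simp only [natDegree_C]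
  exact max_le (by norm_num) ((natDegree_C_mul_le _ _).trans natDegree_X_le)

lemma tri_coeff_top (a b c d : X3) (P : Poly3) :
    (tri a b c d P).coeff P.totalDegree = C (C (topForm P a)) := by
  rw [tri, coeff_aeval_top, topForm]
  have : ((MvPolynomial.aeval (fun i => C (C (a i)) : Fin 3 → (ℂ[X])[X]) :
      Poly3 →ₐ[ℂ] (ℂ[X])[X]).toRingHom) =
      ((C : ℂ[X] →+* (ℂ[X])[X]).comp (C : ℂ →+* ℂ[X])).comp (MvPolynomial.eval a) := by
    apply MvPolynomial.ringHom_ext
    · intro r; simp [Polynomial.algebraMap_apply]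
    · intro i; simp
  have h2 := congrArg (fun g => g (MvPolynomial.homogeneousComponent P.totalDegree P)) this
  simpa using h2

/-- Elimination lemma. -/
lemma elim (a b c d a' b' c' d' : X3) (P R : Poly3) (ha : topForm P a ≠ 0)
    (s₀ t₀ u₀ : ℂ)
    (hP : MvPolynomial.eval (d + s₀ • a + t₀ • b + u₀ • c) P = 0)
    (hR : MvPolynomial.eval (d' + s₀ • a' + t₀ • b' + u₀ • c') R = 0) :
    (∀ t : ℂ, ∃ s : ℂ, MvPolynomial.eval (d + s • a + t • b + u₀ • c) P = 0 ∧
      MvPolynomial.eval (d' + s • a' + t • b' + u₀ • c') R = 0) ∨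
    (∀ᶠ u : ℂ in 𝓝 u₀, ∃ s t : ℂ, MvPolynomial.eval (d + s • a + t • b + u • c) P = 0 ∧
      MvPolynomial.eval (d' + s • a' + t • b' + u • c') R = 0) := by
  classical
  set D := P.totalDegree with hD
  set p := tri a b c d P with hp
  set q := tri a' b' c' d' R with hq
  set n := q.natDegree with hn
  have hpd : p.natDegree ≤ D := tri_natDegree_le _ _ _ _ _
  have hpc : p.coeff D = C (C (topForm P a)) := tri_coeff_top _ _ _ _ _
  set ρ : (ℂ[X])[X] := resultant p q D n with hρ
  -- specialised polynomials
  have hmapc : ∀ t u, (p.map (evTU t u)).coeff D = topForm P a := by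
    intro t u
    rw [coeff_map, hpc]; simp [evTU]
  have hmapd : ∀ t u, (p.map (evTU t u)).natDegree = D := by
    intro t u
    apply le_antisymm
    · exact (natDegree_map_le).trans hpd
    · apply le_natDegree_of_ne_zero
      rw [hmapc]; exact ha
  have hlead : ∀ t u, (p.map (evTU t u)).leadingCoeff = topForm P a := by
    intro t u
    rw [leadingCoeff, hmapd, hmapc]
  have hne : ∀ t u, p.map (evTU t u) ≠ 0 := by
    intro t u h
    have := hlead t u
    rw [h, leadingCoeff_zero] at this
    exact ha this.symm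
  have hzero : ∀ t u, evTU t u ρ = 0 ↔ ∃ s, (p.map (evTU t u)).eval s = 0 ∧
      (q.map (evTU t u)).eval s = 0 := by
    intro t u
    rw [hρ, ← resultant_map_map]
    have h1 := resultant_eq_prod_eval (p.map (evTU t u)) (q.map (evTU t u)) n
      (natDegree_map_le) (IsAlgClosed.splits _)
    rw [hmapd] at h1
    rw [h1, hlead, mul_eq_zero]
    constructor
    · rintro (h | h)
      · exact absurd h (pow_ne_zero n ha)
      · rw [Multiset.prod_eq_zero_iff, Multiset.mem_map] at h
        obtain ⟨s, hs1, hs2⟩ := h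
        exact ⟨s, (mem_roots (hne t u)).1 hs1, hs2⟩
    · rintro ⟨s, hs1, hs2⟩
      right
      rw [Multiset.prod_eq_zero_iff, Multiset.mem_map]
      exact ⟨s, (mem_roots (hne t u)).2 hs1, hs2⟩
  have hzero' : ∀ t u, evTU t u ρ = 0 ↔
      ∃ s : ℂ, MvPolynomial.eval (d + s • a + t • b + u • c) P = 0 ∧
      MvPolynomial.eval (d' + s • a' + t • b' + u • c') R = 0 := by
    intro t u
    rw [hzero]
    simp only [hp, hq, eval_tri]
  -- the polynomial in t
  set r : ℂ → ℂ[X] := fun u => ρ.map (evalRingHom u) with hr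
  have hre : ∀ t u, evTU t u ρ = (r u).eval t := by
    intro t u; simp [evTU, hr]
  by_cases hz : r u₀ = 0
  · left
    intro t
    rw [← hzero', hre, hz]; simp
  · right
    obtain ⟨t₁, ht₁⟩ : ∃ t₁, (r u₀).eval t₁ ≠ 0 := by
      by_contra hcon
      push Not at hcon
      exact hz (Polynomial.funext (by simpa using hcon))
    -- continuity in u
    have hcont : ∀ t, Continuous (fun u => (r u).eval t) := by
      intro t
      have : (fun u => (r u).eval t) = fun u => ((ρ.eval (C t)).eval u) := by
        funext u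
        simp only [hr]
        rw [eval_map]
        have := eval₂_at_apply (p := ρ) (evalRingHom u) (C t)
        simpa using this
      rw [this]
      exact Polynomial.continuous _
    have h0 : (r u₀).eval t₀ = 0 := by
      rw [← hre, hzero']; exact ⟨s₀, hP, hR⟩
    have hper := root_persist (𝓝 u₀) (fun u => (r u).comp (X + C t₀)) ρ.natDegree
      (Eventually.of_forall fun u => by
        refine natDegree_comp_le.trans ?_
        rw [natDegree_X_add_C, mul_one]
        exact natDegree_map_le) (t₁ - t₀) ((r u₀).eval t₁) ht₁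
      (by
        have := (hcont t₀).tendsto u₀
        rw [h0] at this
        simpa [eval_comp] using this)
      (by
        have := (hcont t₁).tendsto u₀
        simpa [eval_comp] using this) 1 one_pos
    filter_upwards [hper] with u hu
    obtain ⟨x, _, hx⟩ := hu
    rw [eval_comp] at hx
    have hx' : evTU (x + t₀) u ρ = 0 := by
      rw [hre]; simpa using hx
    obtain ⟨s, hs⟩ := (hzero' _ _).1 hx'
    exact ⟨s, x + t₀, hs⟩

end Pool.Agent.Ramm7c
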