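import Pool.Agent.Ramm7c.Transv

set_option autoImplicit false
open Filter Topology MeasureTheory

namespace Pool.Agent.Ramm7c

lemma m_pos (L : Poly3) (hL : L ≠ 0) (ρ : E3 → ℝ) (hρ : Continuous ρ) (hpos : ∀ z, 0 < ρ z)
    (v : E3) (hv : MvPolynomial.eval (WithLp.ofLp v) L = 0) (r : ℝ) (hr : 0 < r) :
    (((Measure.hausdorffMeasure (4 : ℝ) : Measure E3).restrict
      {z : E3 | MvPolynomial.eval (WithLp.ofLp z) L = 0}).withDensity
        (fun z => ENNReal.ofReal (ρ z))) (Metric.ball v r) ≠ 0 := by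
  intro h0
  rw [withDensity_apply_eq_zero (hρ.measurable.ennreal_ofReal)] at h0
  have h1 : {x : E3 | ENNReal.ofReal (ρ x) ≠ 0} ∩ Metric.ball v r = Metric.ball v r := by
    apply Set.inter_eq_right.2
    intro x _
    rw [Set.mem_ofPred_eq]
    simpa using hpos x
  rw [h1, Measure.restrict_apply measurableSet_ball, Set.inter_comm] at h0
  exact haus_pos L hL v hv r hr h0

lemma gg_zero_of_eventually (h : (Fin 3 → ℝ) → ℂ) (hint : Integrable h) (B : ℝ)
    (hB : ∀ x, B < ‖x‖ → h x = 0) (p : X3) (hp : ∀ᶠ y in 𝓝 p, gg h y = 0) (y : X3) :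
    gg h y = 0 := by
  have hd := gg_line_differentiable h hint B hB p (y - p)
  have ha : AnalyticOnNhd ℂ (fun u : ℂ => gg h (p + u • (y - p))) Set.univ :=
    Complex.analyticOnNhd_univ_iff_differentiable.2 hd
  have hz : AnalyticOnNhd ℂ (fun _ : ℂ => (0 : ℂ)) Set.univ := analyticOnNhd_const
  have hev : (fun u : ℂ => gg h (p + u • (y - p))) =ᶠ[𝓝 0] fun _ => 0 := by
    have ht : Tendsto (fun u : ℂ => p + u • (y - p)) (𝓝 0) (𝓝 p) := by
      have : Continuous (fun u : ℂ => p + u • (y - p)) := by fun_prop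
      have h2 := this.tendsto 0
      simpa using h2
    exact ht.eventually hp
  have heq := ha.eq_of_eventuallyEq hz hev
  have := congrFun heq 1
  simpa using this

end Pool.Agent.Ramm7c
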