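import Pool.Agent.Ramm7c.Main2

set_option autoImplicit false
open Filter Topology MeasureTheory

namespace Pool.Agent.Ramm7c

/-- Fourier–Laplace transform -/
noncomputable def gg (h : (Fin 3 → ℝ) → ℂ) (z : X3) : ℂ :=
  ∫ x, h x * Complex.exp (Complex.I * ∑ i, z i * (x i : ℂ))

lemma norm_phase_le (z : X3) (x : Fin 3 → ℝ) :
    ‖Complex.I * ∑ i, z i * (x i : ℂ)‖ ≤ 3 * ‖z‖ * ‖x‖ := by
  rw [norm_mul, Complex.norm_I, one_mul]
  refine (norm_sum_le _ _).trans ?_
  calc ∑ i, ‖z i * (x i : ℂ)‖ ≤ ∑ _i : Fin 3, ‖z‖ * ‖x‖ := by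
        refine Finset.sum_le_sum fun i _ => ?_
        rw [norm_mul, Complex.norm_real]
        exact mul_le_mul (norm_le_pi_norm z i) (norm_le_pi_norm x i) (norm_nonneg _) (norm_nonneg _)
    _ = 3 * ‖z‖ * ‖x‖ := by
        rw [Finset.sum_const]; simp; ring

lemma norm_integrand_le (h : (Fin 3 → ℝ) → ℂ) (B : ℝ)
    (hB : ∀ x, B < ‖x‖ → h x = 0) (z : X3) (x : Fin 3 → ℝ) (M : ℝ) (hz : ‖z‖ ≤ M) :
    ‖h x * Complex.exp (Complex.I * ∑ i, z i * (x i : ℂ))‖ ≤ ‖h x‖ * Real.exp (3 * M * |B|) := by
  by_cases hx : B < ‖x‖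
  · rw [hB x hx]; simp
  · push Not at hx
    rw [norm_mul]
    apply mul_le_mul_of_nonneg_left _ (norm_nonneg _)
    rw [Complex.norm_exp]
    apply Real.exp_le_exp.2
    refine (Complex.re_le_norm _).trans ((norm_phase_le z x).trans ?_)
    have h1 : ‖x‖ ≤ |B| := hx.trans (le_abs_self _)
    have h2 : 0 ≤ ‖z‖ := norm_nonneg _
    have h3 : 0 ≤ ‖x‖ := norm_nonneg _
    nlinarith [mul_le_mul hz h1 h3 (h2.trans hz)]

lemma measurable_phase (z : X3) :
    Measurable (fun x : Fin 3 → ℝ => Complex.exp (Complex.I * ∑ i, z i * (x i : ℂ))) := by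
  apply Continuous.measurable
  fun_prop

lemma gg_integrable (h : (Fin 3 → ℝ) → ℂ) (hint : Integrable h) (B : ℝ)
    (hB : ∀ x, B < ‖x‖ → h x = 0) (z : X3) :
    Integrable (fun x => h x * Complex.exp (Complex.I * ∑ i, z i * (x i : ℂ))) := by
  refine Integrable.mono' (hint.norm.mul_const (Real.exp (3 * ‖z‖ * |B|)))
    (hint.aestronglyMeasurable.mul (measurable_phase z).aestronglyMeasurable) ?_
  exact Eventually.of_forall fun x => norm_integrand_le h B hB z x ‖z‖ le_rfl

lemma gg_continuous (h : (Fin 3 → ℝ) → ℂ) (hint : Integrable h) (B : ℝ)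
    (hB : ∀ x, B < ‖x‖ → h x = 0) : Continuous (gg h) := by
  rw [continuous_iff_continuousAt]
  intro z₀
  apply continuousAt_of_dominated (bound := fun x => ‖h x‖ * Real.exp (3 * (‖z₀‖ + 1) * |B|))
  · exact Eventually.of_forall fun z => (gg_integrable h hint B hB z).aestronglyMeasurable
  · filter_upwards [Metric.ball_mem_nhds z₀ one_pos] with z hz
    refine Eventually.of_forall fun x => norm_integrand_le h B hB z x _ ?_
    rw [Metric.mem_ball, dist_eq_norm] at hz
    have : ‖z‖ ≤ ‖z₀‖ + ‖z - z₀‖ := by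
      have := norm_add_le z₀ (z - z₀); simpa using this
    linarith
  · exact hint.norm.mul_const _
  · refine Eventually.of_forall fun x => ?_
    apply Continuous.continuousAt
    fun_prop

lemma gg_line_differentiable (h : (Fin 3 → ℝ) → ℂ) (hint : Integrable h) (B : ℝ)
    (hB : ∀ x, B < ‖x‖ → h x = 0) (z d : X3) : Differentiable ℂ (fun u : ℂ => gg h (z + u • d)) := by
  intro u₀
  have key := hasDerivAt_integral_of_dominated_loc_of_deriv_le (𝕜 := ℂ) (μ := volume)
    (F := fun (u : ℂ) (x : Fin 3 → ℝ) =>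
      h x * Complex.exp (Complex.I * ∑ i, (z + u • d) i * (x i : ℂ)))
    (F' := fun (u : ℂ) (x : Fin 3 → ℝ) =>
      h x * Complex.exp (Complex.I * ∑ i, (z + u • d) i * (x i : ℂ)) *
        (Complex.I * ∑ i, d i * (x i : ℂ)))
    (x₀ := u₀) (s := Metric.ball u₀ 1)
    (bound := fun x => ‖h x‖ * Real.exp (3 * (‖z‖ + (‖u₀‖ + 1) * ‖d‖) * |B|) * (3 * ‖d‖ * |B|))
    (Metric.ball_mem_nhds u₀ one_pos)
    (Eventually.of_forall fun u => (gg_integrable h hint B hB _).aestronglyMeasurable)
    (gg_integrable h hint B hB _)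
    (by
      apply AEStronglyMeasurable.mul (gg_integrable h hint B hB _).aestronglyMeasurable
      apply Continuous.aestronglyMeasurable
      fun_prop)
    (by
      refine Eventually.of_forall fun x u hu => ?_
      rw [norm_mul]
      have hu' : ‖u‖ ≤ ‖u₀‖ + 1 := by
        rw [Metric.mem_ball, dist_eq_norm] at hu
        have : ‖u‖ ≤ ‖u₀‖ + ‖u - u₀‖ := by
          have := norm_add_le u₀ (u - u₀); simpa using this
        linarith
      have hz : ‖z + u • d‖ ≤ ‖z‖ + (‖u₀‖ + 1) * ‖d‖ := by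
        refine (norm_add_le _ _).trans ?_
        rw [norm_smul]
        have := mul_le_mul_of_nonneg_right hu' (norm_nonneg d)
        linarith
      by_cases hx : B < ‖x‖
      · rw [hB x hx]; simp
      · push Not at hx
        apply mul_le_mul (norm_integrand_le h B hB _ x _ hz) _ (norm_nonneg _) (by positivity)
        refine (norm_phase_le d x).trans ?_
        have h1 : ‖x‖ ≤ |B| := hx.trans (le_abs_self _)
        exact mul_le_mul_of_nonneg_left h1 (by positivity))
    ((hint.norm.mul_const _).mul_const _)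
    (by
      refine Eventually.of_forall fun x u _ => ?_
      have h1 : HasDerivAt (fun u : ℂ => Complex.I * ∑ i, (z + u • d) i * (x i : ℂ))
          (Complex.I * ∑ i, d i * (x i : ℂ)) u := by
        apply HasDerivAt.const_mul
        have : ∀ i ∈ (Finset.univ : Finset (Fin 3)),
            HasDerivAt (fun u : ℂ => (z + u • d) i * (x i : ℂ)) (d i * (x i : ℂ)) u := by
          intro i _
          simp only [Pi.add_apply, Pi.smul_apply, smul_eq_mul]
          have h2 := ((hasDerivAt_id u).mul_const (d i)).const_add (z i)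
          have h3 := h2.mul_const (x i : ℂ)
          simpa using h3
        exact HasDerivAt.fun_sum this
      have h2 := h1.cexp.const_mul (h x)
      rw [← mul_assoc] at h2
      exact h2)
  exact key.2.differentiableAt

end Pool.Agent.Ramm7c
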