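import Pool.Agent.Ramm7c.GProps

set_option autoImplicit false
open Filter Topology MeasureTheory

namespace Pool.Agent.Ramm7c

/-- the functional `x ↦ r·x` -/
noncomputable def dotL (r : Fin 3 → ℝ) : StrongDual ℝ (Fin 3 → ℝ) :=
  ∑ i, (r i) • (ContinuousLinearMap.proj i : StrongDual ℝ (Fin 3 → ℝ))

lemma dotL_apply (r x : Fin 3 → ℝ) : dotL r x = ∑ i, r i * x i := by
  simp [dotL]

lemma gg_RL (h : (Fin 3 → ℝ) → ℂ) (z : X3) (r : Fin 3 → ℝ) (hr : r ≠ 0) :
    Tendsto (fun t : ℝ => gg h (z + (t : ℂ) • rv r)) (cocompact ℝ) (𝓝 0) := by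
  have h1 := tendsto_integral_exp_smul_cocompact
    (fun x : Fin 3 → ℝ => h x * Complex.exp (Complex.I * ∑ i, z i * (x i : ℂ)))
    (volume : Measure (Fin 3 → ℝ))
  have hne : dotL r ≠ 0 := by
    intro h0
    apply hr
    funext i
    have := congrArg (fun L : StrongDual ℝ (Fin 3 → ℝ) => L (Pi.single i 1)) h0
    simp only [dotL_apply] at this
    simpa [Pi.single_apply] using this
  have h2 : Tendsto (fun t : ℝ => (-(t / (2 * Real.pi))) • dotL r) (cocompact ℝ)
      (cocompact (StrongDual ℝ (Fin 3 → ℝ))) := by
    rw [Metric.cobounded_eq_cocompact.symm, ← Metric.cobounded_eq_cocompact]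
    rw [← tendsto_norm_atTop_iff_cobounded]
    have h3 : (fun t : ℝ => ‖(-(t / (2 * Real.pi))) • dotL r‖) =
        fun t : ℝ => ‖t‖ * (‖dotL r‖ / (2 * Real.pi)) := by
      funext t
      rw [norm_smul, norm_neg, norm_div, Real.norm_of_nonneg (by positivity : 0 ≤ 2 * Real.pi)]
      ring
    rw [h3]
    apply Tendsto.atTop_mul_const
    · have := norm_pos_iff.2 hne
      positivity
    · exact tendsto_norm_cobounded_atTop
  have h4 := h1.comp h2
  refine h4.congr fun t => ?_
  simp only [Function.comp_apply, gg]
  apply integral_congr_ae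
  refine Eventually.of_forall fun x => ?_
  simp only
  rw [Circle.smul_def, smul_eq_mul, Real.fourierChar_apply, mul_comm, mul_assoc, ← Complex.exp_add]
  congr 2
  rw [smul_apply, dotL_apply, smul_eq_mul]
  simp only [rv, Pi.add_apply, Pi.smul_apply, smul_eq_mul, add_mul, Finset.sum_add_distrib,
    mul_add]
  congr 1
  push_cast
  rw [Finset.mul_sum, Finset.mul_sum, ← Finset.sum_neg_distrib, Finset.mul_sum, Finset.sum_mul]
  refine Finset.sum_congr rfl fun i _ => ?_
  have hpi : (Real.pi : ℂ) ≠ 0 := by exact_mod_cast Real.pi_ne_zero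
  field_simp

/-- injectivity for real-valued functions -/
lemma fourier_inj_real (g : (Fin 3 → ℝ) → ℝ) (hg : Integrable g)
    (H : ∀ L : StrongDual ℝ (Fin 3 → ℝ), ∫ x, (g x : ℂ) * Complex.exp (L x * Complex.I) = 0) :
    g =ᵐ[volume] 0 := by
  set μ : Measure (Fin 3 → ℝ) := volume.withDensity (fun x => ENNReal.ofReal (g x)) with hμ
  set ν : Measure (Fin 3 → ℝ) := volume.withDensity (fun x => ENNReal.ofReal (-g x)) with hν
  have hfin1 : ∫⁻ x, ENNReal.ofReal (g x) ≠ ⊤ := by
    have := hg.lintegral_lt_top
    exact this.ne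
  have hfin2 : ∫⁻ x, ENNReal.ofReal (-g x) ≠ ⊤ := by
    have := hg.neg.lintegral_lt_top
    exact this.ne
  have : IsFiniteMeasure μ := isFiniteMeasure_withDensity hfin1
  have : IsFiniteMeasure ν := isFiniteMeasure_withDensity hfin2
  have hmeas1 : AEMeasurable (fun x => Real.toNNReal (g x)) volume :=
    hg.aestronglyMeasurable.aemeasurable.real_toNNReal
  have hmeas2 : AEMeasurable (fun x => Real.toNNReal (-g x)) volume :=
    hg.neg.aestronglyMeasurable.aemeasurable.real_toNNReal
  have heq : μ = ν := by
    apply Measure.ext_of_charFunDual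
    funext L
    rw [charFunDual_apply, charFunDual_apply]
    have e1 : ∫ x, Complex.exp (L x * Complex.I) ∂μ =
        ∫ x, ((Real.toNNReal (g x) : ℝ) : ℂ) * Complex.exp (L x * Complex.I) := by
      rw [hμ]
      have := integral_withDensity_eq_integral_smul₀ hmeas1
        (fun x => Complex.exp (L x * Complex.I))
      refine this.trans ?_
      apply integral_congr_ae
      refine Eventually.of_forall fun x => ?_
      simp only [NNReal.smul_def, Complex.real_smul]
    have e2 : ∫ x, Complex.exp (L x * Complex.I) ∂ν =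
        ∫ x, ((Real.toNNReal (-g x) : ℝ) : ℂ) * Complex.exp (L x * Complex.I) := by
      rw [hν]
      have := integral_withDensity_eq_integral_smul₀ hmeas2
        (fun x => Complex.exp (L x * Complex.I))
      refine this.trans ?_
      apply integral_congr_ae
      refine Eventually.of_forall fun x => ?_
      simp only [NNReal.smul_def, Complex.real_smul]
    have hphase : AEStronglyMeasurable (fun x : Fin 3 → ℝ => Complex.exp (L x * Complex.I)) volume := by
      apply Continuous.aestronglyMeasurable
      fun_prop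
    have hbd : ∀ x : Fin 3 → ℝ, ‖Complex.exp (L x * Complex.I)‖ ≤ 1 := fun x => by
      rw [Complex.norm_exp_ofReal_mul_I]
    have i1 : Integrable (fun x => ((Real.toNNReal (g x) : ℝ) : ℂ) * Complex.exp (L x * Complex.I)) := by
      apply Integrable.mul_bdd (c := 1) _ hphase (Eventually.of_forall hbd)
      exact (hg.real_toNNReal).ofReal
    have i2 : Integrable (fun x => ((Real.toNNReal (-g x) : ℝ) : ℂ) * Complex.exp (L x * Complex.I)) := by
      apply Integrable.mul_bdd (c := 1) _ hphase (Eventually.of_forall hbd)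
      exact (hg.neg.real_toNNReal).ofReal
    rw [e1, e2, ← sub_eq_zero, ← integral_sub i1 i2, ← H L]
    apply integral_congr_ae
    refine Eventually.of_forall fun x => ?_
    simp only
    rw [← sub_mul]
    congr 1
    rw [← Complex.ofReal_sub]
    congr 1
    rw [Real.coe_toNNReal', Real.coe_toNNReal']
    rcases le_total 0 (g x) with h | h
    · rw [max_eq_left h, max_eq_right (by linarith), sub_zero]
    · rw [max_eq_right h, max_eq_left (by linarith)]; ring
  have h3 := (withDensity_eq_iff hmeas1.coe_nnreal_ennreal hmeas2.coe_nnreal_ennreal hfin1).1 heq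
  filter_upwards [h3] with x hx
  have h4 : Real.toNNReal (g x) = Real.toNNReal (-g x) := by exact_mod_cast hx
  have h5 := congrArg (fun y : NNReal => (y : ℝ)) h4
  simp only [Real.coe_toNNReal'] at h5
  rcases le_total 0 (g x) with h | h
  · rw [max_eq_left h, max_eq_right (by linarith)] at h5
    exact h5
  · rw [max_eq_right h, max_eq_left (by linarith)] at h5
    simp only [Pi.zero_apply]; linarith

end Pool.Agent.Ramm7c
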