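import Pool.Agent.Ramm7c.GProps2

set_option autoImplicit false
open Filter Topology MeasureTheory

namespace Pool.Agent.Ramm7c

lemma dual_eq_dotL (L : StrongDual ℝ (Fin 3 → ℝ)) : ∃ ξ : Fin 3 → ℝ, ∀ x, L x = ∑ i, ξ i * x i := by
  refine ⟨fun i => L (Pi.single i 1), fun x => ?_⟩
  conv_lhs => rw [← Finset.univ_sum_single x]
  rw [map_sum]
  refine Finset.sum_congr rfl fun i _ => ?_
  have : (Pi.single i (x i) : Fin 3 → ℝ) = (x i) • Pi.single i 1 := by
    rw [← Pi.single_smul]; simp
  rw [this, map_smul, smul_eq_mul, mul_comm]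

lemma fourier_inj (h : (Fin 3 → ℝ) → ℂ) (hint : Integrable h)
    (H : ∀ ξ : Fin 3 → ℝ, gg h (rv ξ) = 0) : h =ᵐ[volume] 0 := by
  have HL : ∀ L : StrongDual ℝ (Fin 3 → ℝ), ∫ x, h x * Complex.exp (L x * Complex.I) = 0 := by
    intro L
    obtain ⟨ξ, hξ⟩ := dual_eq_dotL L
    rw [← H ξ, gg]
    apply integral_congr_ae
    refine Eventually.of_forall fun x => ?_
    simp only [hξ x, rv]
    congr 2
    push_cast
    ring
  have HLc : ∀ L : StrongDual ℝ (Fin 3 → ℝ),
      ∫ x, (starRingEnd ℂ) (h x) * Complex.exp (L x * Complex.I) = 0 := by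
    intro L
    have h1 := HL (-L)
    have h2 : ∫ x, (starRingEnd ℂ) (h x) * Complex.exp (L x * Complex.I) =
        ∫ x, (starRingEnd ℂ) (h x * Complex.exp ((-L) x * Complex.I)) := by
      apply integral_congr_ae
      refine Eventually.of_forall fun x => ?_
      simp only [map_mul]
      congr 1
      rw [← Complex.exp_conj]
      congr 1
      simp
    rw [h2, integral_conj, h1, map_zero]
  have hphase : ∀ L : StrongDual ℝ (Fin 3 → ℝ),
      AEStronglyMeasurable (fun x : Fin 3 → ℝ => Complex.exp (L x * Complex.I)) volume := by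
    intro L
    apply Continuous.aestronglyMeasurable
    fun_prop
  have hbd : ∀ (L : StrongDual ℝ (Fin 3 → ℝ)) (x : Fin 3 → ℝ),
      ‖Complex.exp (L x * Complex.I)‖ ≤ 1 := fun L x => by
    rw [Complex.norm_exp_ofReal_mul_I]
  have i1 : ∀ L : StrongDual ℝ (Fin 3 → ℝ),
      Integrable (fun x => h x * Complex.exp (L x * Complex.I)) := fun L =>
    hint.mul_bdd (c := 1) (hphase L) (Eventually.of_forall (hbd L))
  have i2 : ∀ L : StrongDual ℝ (Fin 3 → ℝ),
      Integrable (fun x => (starRingEnd ℂ) (h x) * Complex.exp (L x * Complex.I)) := fun L => by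
    apply Integrable.mul_bdd (c := 1) _ (hphase L) (Eventually.of_forall (hbd L))
    exact (Complex.conjLIE.integrable_comp_iff).2 hint
  have hre : (fun x => (h x).re) =ᵐ[volume] 0 := by
    apply fourier_inj_real (fun x => (h x).re) hint.re
    intro L
    have h1 : ∫ x, ((h x).re : ℂ) * Complex.exp (L x * Complex.I) =
        ∫ x, (1/2 : ℂ) * (h x * Complex.exp (L x * Complex.I) +
          (starRingEnd ℂ) (h x) * Complex.exp (L x * Complex.I)) := by
      apply integral_congr_ae
      refine Eventually.of_forall fun x => ?_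
      simp only
      rw [Complex.re_eq_add_conj]; ring
    rw [h1, integral_const_mul, integral_add (i1 L) (i2 L), HL, HLc]; simp
  have him : (fun x => (h x).im) =ᵐ[volume] 0 := by
    apply fourier_inj_real (fun x => (h x).im) hint.im
    intro L
    have h1 : ∫ x, ((h x).im : ℂ) * Complex.exp (L x * Complex.I) =
        ∫ x, (1/(2 * Complex.I) : ℂ) * (h x * Complex.exp (L x * Complex.I) -
          (starRingEnd ℂ) (h x) * Complex.exp (L x * Complex.I)) := by
      apply integral_congr_ae
      refine Eventually.of_forall fun x => ?_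
      simp only
      rw [Complex.im_eq_sub_conj]; ring
    rw [h1, integral_const_mul, integral_sub (i1 L) (i2 L), HL, HLc]; simp
  filter_upwards [hre, him] with x h1 h2
  apply Complex.ext
  · simpa using h1
  · simpa using h2

lemma null_aff (c : X3) (hc : c ≠ 0) (κ : ℂ) :
    volume {x : Fin 3 → ℝ | ∑ i, c i * (x i : ℂ) = κ} = 0 := by
  let T : (Fin 3 → ℝ) →ₗ[ℝ] ℂ :=
    { toFun := fun x => ∑ i, c i * (x i : ℂ)
      map_add' := fun x y => by
        simp only [Pi.add_apply, Complex.ofReal_add, mul_add, Finset.sum_add_distrib]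
      map_smul' := fun s x => by
        simp only [Pi.smul_apply, smul_eq_mul, Complex.ofReal_mul, RingHom.id_apply,
          Complex.real_smul, Finset.mul_sum]
        refine Finset.sum_congr rfl fun i _ => by ring }
  by_cases he : ∃ x₀, T x₀ = κ
  · obtain ⟨x₀, hx₀⟩ := he
    have hset : {x : Fin 3 → ℝ | ∑ i, c i * (x i : ℂ) = κ} =
        (AffineSubspace.mk' x₀ (LinearMap.ker T) : Set (Fin 3 → ℝ)) := by
      ext x
      rw [Set.mem_ofPred_eq, SetLike.mem_coe, AffineSubspace.mem_mk', LinearMap.mem_ker]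
      rw [vsub_eq_sub, map_sub, hx₀, sub_eq_zero]
      exact Iff.rfl
    rw [hset]
    apply Measure.addHaar_affineSubspace
    intro htop
    have h1 : LinearMap.ker T = ⊤ := by
      have := congrArg AffineSubspace.direction htop
      rwa [AffineSubspace.direction_mk', AffineSubspace.direction_top] at this
    obtain ⟨j, hj⟩ := Function.ne_iff.1 hc
    apply hj
    have h2 : (Pi.single j 1 : Fin 3 → ℝ) ∈ LinearMap.ker T := by rw [h1]; trivial
    rw [LinearMap.mem_ker] at h2
    have h3 : T (Pi.single j 1) = c j := by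
      show ∑ i, c i * (((Pi.single j 1 : Fin 3 → ℝ) i : ℝ) : ℂ) = c j
      rw [Finset.sum_eq_single j]
      · simp
      · intro i _ hij; simp [hij]
      · intro h; exact absurd (Finset.mem_univ j) h
    rw [h3] at h2
    simpa using h2
  · have : {x : Fin 3 → ℝ | ∑ i, c i * (x i : ℂ) = κ} = ∅ := by
      ext x
      simp only [Set.mem_ofPred_eq, Set.mem_empty_iff_false, iff_false]
      intro h; exact he ⟨x, h⟩
    rw [this]; simp

lemma null_exp (c : X3) (hc : c ≠ 0) (ρ : ℂ) :
    volume {x : Fin 3 → ℝ | Complex.exp (Complex.I * ∑ i, c i * (x i : ℂ)) = ρ} = 0 := by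
  by_cases hρ : ρ = 0
  · have : {x : Fin 3 → ℝ | Complex.exp (Complex.I * ∑ i, c i * (x i : ℂ)) = ρ} = ∅ := by
      ext x
      simp only [Set.mem_ofPred_eq, Set.mem_empty_iff_false, iff_false, hρ]
      exact Complex.exp_ne_zero _
    rw [this]; simp
  · have hsub : {x : Fin 3 → ℝ | Complex.exp (Complex.I * ∑ i, c i * (x i : ℂ)) = ρ} ⊆
        ⋃ n : ℤ, {x : Fin 3 → ℝ | ∑ i, c i * (x i : ℂ) =
          (Complex.log ρ + n * (2 * Real.pi * Complex.I)) / Complex.I} := by
      intro x hx
      rw [Set.mem_ofPred_eq] at hx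
      rw [← Complex.exp_log hρ] at hx
      obtain ⟨n, hn⟩ := Complex.exp_eq_exp_iff_exists_int.1 hx
      rw [Set.mem_iUnion]
      refine ⟨n, ?_⟩
      rw [Set.mem_ofPred_eq, eq_div_iff Complex.I_ne_zero, mul_comm]
      exact hn
    refine measure_mono_null hsub ?_
    rw [measure_iUnion_null_iff]
    intro n
    exact null_aff c hc _

lemma null_poly (c : X3) (hc : c ≠ 0) (p : Polynomial ℂ) (hp : p ≠ 0) :
    ∀ᵐ x : Fin 3 → ℝ, p.eval (Complex.exp (Complex.I * ∑ i, c i * (x i : ℂ))) ≠ 0 := by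
  have h1 : ∀ ρ ∈ p.roots.toFinset, ∀ᵐ x : Fin 3 → ℝ,
      Complex.exp (Complex.I * ∑ i, c i * (x i : ℂ)) ≠ ρ := by
    intro ρ _
    rw [ae_iff]
    simp only [not_not]
    exact null_exp c hc ρ
  have h2 := (Filter.eventually_all_finset p.roots.toFinset).2 h1
  filter_upwards [h2] with x hx h0
  apply hx (Complex.exp (Complex.I * ∑ i, c i * (x i : ℂ))) _ rfl
  rw [Multiset.mem_toFinset]
  exact (Polynomial.mem_roots hp).2 h0

lemma gg_H4 (h : (Fin 3 → ℝ) → ℂ) (hint : Integrable h) (B : ℝ)
    (hB : ∀ x, B < ‖x‖ → h x = 0) (hne : ¬ h =ᵐ[volume] 0) (c : X3) (hc : c ≠ 0)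
    (p : Polynomial ℂ) (hp : p ≠ 0) :
    ¬ ∀ y, ∑ m ∈ Finset.range (p.natDegree + 1), p.coeff m * gg h (y + (m : ℂ) • c) = 0 := by
  intro hall
  apply hne
  set h' : (Fin 3 → ℝ) → ℂ := fun x =>
    h x * p.eval (Complex.exp (Complex.I * ∑ i, c i * (x i : ℂ))) with hh'
  have hexp : ∀ (y : X3) (x : Fin 3 → ℝ),
      h' x * Complex.exp (Complex.I * ∑ i, y i * (x i : ℂ)) =
      ∑ m ∈ Finset.range (p.natDegree + 1), p.coeff m *
        (h x * Complex.exp (Complex.I * ∑ i, (y + (m : ℂ) • c) i * (x i : ℂ))) := by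
    intro y x
    simp only [hh']
    rw [Polynomial.eval_eq_sum_range, Finset.mul_sum, Finset.sum_mul]
    refine Finset.sum_congr rfl fun m _ => ?_
    have : Complex.exp (Complex.I * ∑ i, (y + (m : ℂ) • c) i * (x i : ℂ)) =
        Complex.exp (Complex.I * ∑ i, c i * (x i : ℂ)) ^ m *
          Complex.exp (Complex.I * ∑ i, y i * (x i : ℂ)) := by
      rw [← Complex.exp_nat_mul, ← Complex.exp_add]
      congr 1
      simp only [Pi.add_apply, Pi.smul_apply, smul_eq_mul, add_mul, Finset.sum_add_distrib,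
        mul_add, Finset.mul_sum]
      rw [add_comm]
      congr 1
      refine Finset.sum_congr rfl fun i _ => by ring
    rw [this]
    ring
  have hint' : Integrable h' := by
    have h1 : h' = fun x => ∑ m ∈ Finset.range (p.natDegree + 1), p.coeff m *
        (h x * Complex.exp (Complex.I * ∑ i, ((0 : X3) + (m : ℂ) • c) i * (x i : ℂ))) := by
      funext x
      rw [← hexp 0 x]; simp
    rw [h1]
    exact integrable_finsetSum _ fun m _ => (gg_integrable h hint B hB _).const_mul _
  have hzero : ∀ y : X3, gg h' y = 0 := by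
    intro y
    rw [← hall y, gg]
    simp only [hexp]
    rw [integral_finsetSum _ fun m _ => (gg_integrable h hint B hB _).const_mul _]
    refine Finset.sum_congr rfl fun m _ => ?_
    rw [integral_const_mul, gg]
  have h0 := fourier_inj h' hint' (fun ξ => hzero _)
  filter_upwards [h0, null_poly c hc p hp] with x hx1 hx2
  simp only [hh', Pi.zero_apply, mul_eq_zero] at hx1
  exact hx1.resolve_right hx2

end Pool.Agent.Ramm7c
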