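import Pool.Agent.Ramm7c.GProps3

set_option autoImplicit false
open Filter Topology MeasureTheory

namespace Pool.Agent.Ramm7c

abbrev E3 := EuclideanSpace ℂ (Fin 3)

lemma haus_pos (P : Poly3) (hP : P ≠ 0) (p : E3)
    (hp : MvPolynomial.eval (WithLp.ofLp p) P = 0) (r : ℝ) (hr : 0 < r) :
    (Measure.hausdorffMeasure (4 : ℝ) : Measure E3)
      ({z : E3 | MvPolynomial.eval (WithLp.ofLp z) P = 0} ∩ Metric.ball p r) ≠ 0 := by
  obtain ⟨x, hx⟩ : ∃ x : X3, MvPolynomial.eval x P ≠ 0 := by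
    by_contra hcon
    push Not at hcon
    exact hP (MvPolynomial.funext (by simpa using hcon))
  set a : X3 := x - WithLp.ofLp p with ha
  have ha0 : a ≠ 0 := by
    intro h
    rw [ha, sub_eq_zero] at h
    rw [h] at hx; exact hx hp
  obtain ⟨b, c, ℓs, ℓb, ℓc, hℓ⟩ := exists_coords a ha0
  obtain ⟨π, hπ0, hπ1⟩ : ∃ π : E3 →L[ℂ] (Fin 2 → ℂ),
      (∀ z : E3, π z 0 = ℓb (WithLp.ofLp z)) ∧ (∀ z : E3, π z 1 = ℓc (WithLp.ofLp z)) :=
    ⟨(ContinuousLinearMap.pi (fun i : Fin 2 => if i = 0 then ℓb else ℓc)).comp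
      (PiLp.continuousLinearEquiv 2 ℂ (fun _ : Fin 3 => ℂ) : E3 →L[ℂ] X3),
      fun z => rfl, fun z => rfl⟩
  set S : Set E3 := {z : E3 | MvPolynomial.eval (WithLp.ofLp z) P = 0} ∩ Metric.ball p r with hS
  -- the lifted point
  obtain ⟨w, hw⟩ : ∃ w : (Fin 2 → ℂ) → X3, ∀ y, w y =
      WithLp.ofLp p + (y 0 - π p 0) • b + (y 1 - π p 1) • c := ⟨_, fun y => rfl⟩
  have hwc : Continuous w := by
    have : w = fun y => WithLp.ofLp p + (y 0 - π p 0) • b + (y 1 - π p 1) • c := funext hw
    rw [this]; fun_prop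
  have hw0 : w (π p) = WithLp.ofLp p := by rw [hw]; simp
  have hcont : Continuous (fun q : (Fin 2 → ℂ) × ℂ => (WithLp.toLp 2 (w q.1 + q.2 • a) : E3)) := by
    have h1 : Continuous (fun q : (Fin 2 → ℂ) × ℂ => w q.1 + q.2 • a) := by
      exact (hwc.comp continuous_fst).add (continuous_snd.smul continuous_const)
    exact (PiLp.continuous_toLp 2 _).comp h1
  have hmem : (fun q : (Fin 2 → ℂ) × ℂ => (WithLp.toLp 2 (w q.1 + q.2 • a) : E3)) ⁻¹'
      (Metric.ball p r) ∈ 𝓝 (π p, (0:ℂ)) := by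
    apply hcont.continuousAt.preimage_mem_nhds
    apply Metric.isOpen_ball.mem_nhds
    simp only [hw0, zero_smul, add_zero]
    exact Metric.mem_ball_self hr
  rw [nhds_prod_eq, mem_prod_iff] at hmem
  obtain ⟨U, hU, V, hV, hUV⟩ := hmem
  obtain ⟨δ, hδ, hball⟩ := Metric.mem_nhds_iff.1 hV
  have hUV' : ∀ y ∈ U, ∀ s ∈ V, (WithLp.toLp 2 (w y + s • a) : E3) ∈ Metric.ball p r := by
    intro y hy s hs
    have h := hUV (Set.mk_mem_prod hy hs)
    rw [Set.mem_preimage] at h
    exact h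
  have hper := root_persist (𝓝 (π p)) (fun y => line (w y) a P) P.totalDegree
    (Eventually.of_forall fun y => natDegree_line_le _ _ _) 1 (MvPolynomial.eval x P) hx
    (by
      simp only [eval_line, zero_smul, add_zero]
      have := ((continuous_evalP P).comp hwc).tendsto (π p)
      simp only [Function.comp_apply, hw0, hp] at this
      exact this)
    (by
      simp only [eval_line, one_smul]
      have h1 : Continuous (fun y => w y + a) := hwc.add continuous_const
      have := ((continuous_evalP P).comp h1).tendsto (π p)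
      simp only [Function.comp_apply, hw0] at this
      rw [ha, add_sub_cancel] at this
      exact this) δ hδ
  have hnhds : π '' S ∈ 𝓝 (π p) := by
    filter_upwards [hper, hU] with y hy hyU
    obtain ⟨s, hs1, hs2⟩ := hy
    rw [eval_line] at hs2
    have hinS : (WithLp.toLp 2 (w y + s • a) : E3) ∈ S := by
      rw [hS]
      refine Set.mem_inter ?_ (hUV' y hyU s (hball (by simpa using hs1)))
      rw [Set.mem_ofPred_eq]
      exact hs2
    refine ⟨WithLp.toLp 2 (w y + s • a), hinS, ?_⟩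
    · have hdec : w y + s • a = (ℓs (WithLp.ofLp p) + s) • a + (y 0) • b + (y 1) • c := by
        have h1 := (hℓ (WithLp.ofLp p)).1
        have h3 : w y + s • a = (WithLp.ofLp p - ℓs (WithLp.ofLp p) • a - ℓb (WithLp.ofLp p) • b -
            ℓc (WithLp.ofLp p) • c) + (ℓs (WithLp.ofLp p) + s) • a + (y 0) • b + (y 1) • c := by
          rw [hw, hπ0, hπ1]
          module
        rw [h3]
        have h4 : WithLp.ofLp p - ℓs (WithLp.ofLp p) • a - ℓb (WithLp.ofLp p) • b -
            ℓc (WithLp.ofLp p) • c = 0 := by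
          nth_rewrite 1 [h1]
          abel
        rw [h4, zero_add]
      have h2 := (hℓ 0).2 (ℓs (WithLp.ofLp p) + s) (y 0) (y 1)
      funext i
      fin_cases i
      · show π _ 0 = y 0
        rw [hπ0]
        show ℓb (w y + s • a) = y 0
        rw [hdec]; exact h2.1
      · show π _ 1 = y 1
        rw [hπ1]
        show ℓc (w y + s • a) = y 1
        rw [hdec]; exact h2.2
  intro hzero
  have hlip : LipschitzWith ‖π‖₊ π := π.lipschitz
  have h1 := hlip.hausdorffMeasure_image_le (d := 4) (by norm_num) S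
  rw [hzero, mul_zero] at h1
  have h2 : (Measure.hausdorffMeasure (4 : ℝ) : Measure (Fin 2 → ℂ)) (π '' S) = 0 :=
    le_antisymm h1 zero_le
  have hfr : ((Module.finrank ℝ (Fin 2 → ℂ) : ℕ) : ℝ) = 4 := by
    have : Module.finrank ℝ (Fin 2 → ℂ) = 4 := by
      rw [finrank_real_of_complex]; simp
    rw [this]; norm_num
  rw [← hfr] at h2
  have h3 := MeasureTheory.Measure.measure_pos_of_mem_nhds
    (Measure.hausdorffMeasure ((Module.finrank ℝ (Fin 2 → ℂ) : ℕ) : ℝ) : Measure (Fin 2 → ℂ)) hnhds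
  rw [h2] at h3
  exact lt_irrefl _ h3

end Pool.Agent.Ramm7c
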