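import Pool.Agent.Ramm7c.Coeff

set_option autoImplicit false
open Filter Topology

namespace Pool.Agent.Ramm7c

/-- translates bounded along `ω` -/
def BddT (ω : ℕ → X3) (G : Poly3) : Prop :=
  ∀ v : X3, ∃ C : ℝ, ∀ k, ‖MvPolynomial.eval (ω k + v) G‖ ≤ C

/-- linear functionals bounded along `ω` -/
def bddDual (ω : ℕ → X3) : Submodule ℂ (Module.Dual ℂ X3) where
  carrier := {ℓ | ∃ C : ℝ, ∀ k, ‖ℓ (ω k)‖ ≤ C}
  zero_mem' := ⟨0, fun k => by simp⟩
  add_mem' := by
    rintro a b ⟨C, hC⟩ ⟨C', hC'⟩
    exact ⟨C + C', fun k => (norm_add_le _ _).trans (add_le_add (hC k) (hC' k))⟩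
  smul_mem' := by
    rintro c a ⟨C, hC⟩
    refine ⟨‖c‖ * C, fun k => ?_⟩
    rw [LinearMap.smul_apply, norm_smul]
    exact mul_le_mul_of_nonneg_left (hC k) (norm_nonneg _)

/-- common kernel -/
def WW (ω : ℕ → X3) : Submodule ℂ X3 := (bddDual ω).dualCoannihilator

lemma bounded_mod (ω : ℕ → X3) (W' : Submodule ℂ X3) (h : IsCompl (WW ω) W') :
    ∃ C : ℝ, ∀ k, ‖W'.projection (WW ω) h.symm (ω k)‖ ≤ C := by
  have key : ∀ j : Fin 3, ∃ C : ℝ, ∀ k, ‖W'.projection (WW ω) h.symm (ω k) j‖ ≤ C := by
    intro j
    have h1 : ((LinearMap.proj j : X3 →ₗ[ℂ] ℂ) ∘ₗ (W'.projection (WW ω) h.symm)) ∈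
        (WW ω).dualAnnihilator := by
      rw [Submodule.mem_dualAnnihilator]
      intro w hw
      rw [LinearMap.comp_apply, Submodule.projection_apply_of_mem_right h.symm hw]
      simp
    have h2 : (WW ω).dualAnnihilator = bddDual ω :=
      Subspace.dualCoannihilator_dualAnnihilator_eq
    rw [h2] at h1
    exact h1
  choose C hC using key
  refine ⟨∑ j, |C j|, fun k => ?_⟩
  rw [pi_norm_le_iff_of_nonneg (Finset.sum_nonneg fun j _ => abs_nonneg _)]
  intro j
  exact ((hC j k).trans (le_abs_self _)).trans
    (Finset.single_le_sum (f := fun j => |C j|) (fun j _ => abs_nonneg _) (Finset.mem_univ j))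

/-- additive polynomial functions are homogeneous -/
lemma additive_poly (q : Polynomial ℂ) (h : ∀ s t, q.eval (s + t) = q.eval s + q.eval t) (s : ℂ) :
    q.eval s = s * q.eval 1 := by
  have h0 : q.eval 0 = 0 := by simpa using h 0 0
  have hn : ∀ n : ℕ, q.eval (n : ℂ) = n * q.eval 1 := by
    intro n
    induction n with
    | zero => simp [h0]
    | succ n ih => push_cast; rw [h, ih]; ring
  have : q = Polynomial.X * Polynomial.C (q.eval 1) := by
    apply Polynomial.eq_of_infinite_eval_eq
    apply Set.Infinite.mono (s := Set.range (fun n : ℕ => (n : ℂ)))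
    · rintro _ ⟨n, rfl⟩
      show q.eval (n : ℂ) = _
      rw [hn n, Polynomial.eval_mul, Polynomial.eval_X, Polynomial.eval_C]
    · exact Set.infinite_range_of_injective Nat.cast_injective
  conv_lhs => rw [this]
  rw [Polynomial.eval_mul, Polynomial.eval_X, Polynomial.eval_C]

lemma lemA (ω : ℕ → X3) : ∀ (d : ℕ) (G : Poly3), G.totalDegree ≤ d → BddT ω G →
    ∀ w ∈ WW ω, ∀ v, MvPolynomial.eval (v + w) G = MvPolynomial.eval v G := by
  intro d
  induction d with
  | zero =>
    intro G hG _ w _ v
    have h0 : G.totalDegree = 0 := by omega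
    rw [MvPolynomial.totalDegree_eq_zero_iff_eq_C] at h0
    rw [h0]; simp
  | succ d ih =>
    intro G hG hB
    -- differences are invariant
    have hdiff : ∀ w ∈ WW ω, ∀ h v, MvPolynomial.eval (v + w + h) G - MvPolynomial.eval (v + w) G =
        MvPolynomial.eval (v + h) G - MvPolynomial.eval v G := by
      intro w hw h v
      have := ih (sh h G - G) (by
        have := sh_sub_totalDegree h G
        omega) (by
        intro v
        obtain ⟨C, hC⟩ := hB (v + h)
        obtain ⟨C', hC'⟩ := hB v
        refine ⟨C + C', fun k => ?_⟩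
        rw [map_sub, eval_sh]
        refine (norm_sub_le _ _).trans (add_le_add ?_ (hC' k))
        have := hC k
        rwa [← add_assoc] at this) w hw v
      simpa only [map_sub, eval_sh] using this
    set lam : X3 → ℂ := fun w => MvPolynomial.eval w G - MvPolynomial.eval 0 G with hlam
    have hbase : ∀ w ∈ WW ω, ∀ v, MvPolynomial.eval (v + w) G = MvPolynomial.eval v G + lam w := by
      intro w hw v
      have := hdiff w hw v 0
      rw [zero_add, zero_add] at this
      rw [hlam, add_comm v w]
      simp only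
      linear_combination this
    have hadd : ∀ w ∈ WW ω, ∀ w' ∈ WW ω, lam (w + w') = lam w + lam w' := by
      intro w hw w' hw'
      have := hbase w' hw' w
      simp only [hlam] at this ⊢
      rw [this]; ring
    have hhom : ∀ (s : ℂ), ∀ w ∈ WW ω, lam (s • w) = s * lam w := by
      intro s w hw
      have := additive_poly (line 0 w G - Polynomial.C (MvPolynomial.eval 0 G)) (by
        intro s t
        have := hadd (s • w) ((WW ω).smul_mem s hw) (t • w) ((WW ω).smul_mem t hw)
        simp only [hlam] at this
        simp only [Polynomial.eval_sub, eval_line, Polynomial.eval_C, zero_add, add_smul]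
        exact this) s
      simp only [Polynomial.eval_sub, eval_line, Polynomial.eval_C, zero_add, one_smul] at this
      exact this
    obtain ⟨W', hW'⟩ := Submodule.exists_isCompl (WW ω)
    -- the linear map
    let L0 : WW ω →ₗ[ℂ] ℂ :=
      { toFun := fun w => lam w
        map_add' := fun w w' => hadd w w.2 w' w'.2
        map_smul' := fun s w => by
          simpa using hhom s w w.2 }
    let L : Module.Dual ℂ X3 := L0 ∘ₗ ((WW ω).projectionOnto W' hW')
    obtain ⟨C, hC⟩ := bounded_mod ω W' hW'
    have hdec : ∀ k, ω k = W'.projection (WW ω) hW'.symm (ω k) + (WW ω).projection W' hW' (ω k) :=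
      fun k => (Submodule.projection_add_projection_eq_self hW'.symm (ω k)).symm
    have hLmem : L ∈ bddDual ω := by
      obtain ⟨C0, hC0⟩ := hB 0
      obtain ⟨C1, hC1⟩ : ∃ C1 : ℝ, ∀ x ∈ Metric.closedBall (0 : X3) C,
          ‖MvPolynomial.eval x G‖ ≤ C1 :=
        (isCompact_closedBall (0 : X3) C).exists_bound_of_continuousOn (continuous_evalP G).continuousOn
      refine ⟨C0 + C1, fun k => ?_⟩
      have h1 : L (ω k) = lam ((WW ω).projection W' hW' (ω k)) := rfl
      have h2 := hbase ((WW ω).projection W' hW' (ω k)) (by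
        rw [Submodule.projection_apply]; exact Submodule.coe_mem _)
        (W'.projection (WW ω) hW'.symm (ω k))
      rw [← hdec k] at h2
      rw [h1]
      have h3 : lam ((WW ω).projection W' hW' (ω k)) = MvPolynomial.eval (ω k) G -
          MvPolynomial.eval (W'.projection (WW ω) hW'.symm (ω k)) G := by
        rw [h2]; ring
      rw [h3]
      refine (norm_sub_le _ _).trans (add_le_add ?_ ?_)
      · simpa using hC0 k
      · exact hC1 _ (by rw [Metric.mem_closedBall, dist_zero_right]; exact hC k)
    intro w hw v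
    rw [hbase w hw v]
    have h1 : L w = 0 := by
      have := (Submodule.mem_dualCoannihilator (Φ := bddDual ω) w).1 hw L hLmem
      exact this
    have h2 : L w = lam w := by
      show L0 ((WW ω).projectionOnto W' hW' w) = lam w
      rw [Submodule.projectionOnto_apply_of_mem_left hW' hw]
      rfl
    rw [← h2, h1, add_zero]

end Pool.Agent.Ramm7c
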