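import Pool.Agent.Ramm7c.Bmw

set_option autoImplicit false
open Filter Topology

namespace Pool.Agent.Ramm7c

/-- real vectors inside complex ones -/
def rv (r : Fin 3 → ℝ) : X3 := fun i => (r i : ℂ)

lemma exists_real_vector (W : Submodule ℂ X3) (hW : 2 ≤ Module.finrank ℂ W) :
    ∃ r : Fin 3 → ℝ, r ≠ 0 ∧ rv r ∈ W := by
  let f : (Fin 3 → ℝ) →ₗ[ℝ] (X3 ⧸ W) :=
    { toFun := fun r => Submodule.Quotient.mk (rv r)
      map_add' := fun x y => by
        rw [← Submodule.Quotient.mk_add]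
        congr 1
        funext i; simp [rv]
      map_smul' := fun c x => by
        rw [RingHom.id_apply, ← Submodule.Quotient.mk_smul]
        congr 1
        funext i; simp [rv] }
  have h1 : Module.finrank ℝ (X3 ⧸ W) ≤ 2 := by
    have h2 : Module.finrank ℝ (X3 ⧸ W) = 2 * Module.finrank ℂ (X3 ⧸ W) :=
      finrank_real_of_complex _
    have h3 := Submodule.finrank_quotient_add_finrank W
    have h4 : Module.finrank ℂ X3 = 3 := by simp
    omega
  have h5 : Module.finrank ℝ (Fin 3 → ℝ) = 3 := by simp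
  have h6 : LinearMap.ker f ≠ ⊥ := by
    apply LinearMap.ker_ne_bot_of_finrank_lt
    omega
  obtain ⟨r, hr, hr0⟩ := Submodule.exists_mem_ne_zero_of_ne_bot h6
  refine ⟨r, hr0, ?_⟩
  rw [LinearMap.mem_ker] at hr
  exact (Submodule.Quotient.mk_eq_zero W).1 hr

/-- The Riemann–Lebesgue case. -/
lemma rl_case (G : X3 → ℂ) (n : ℕ) (z : X3) (P R : Poly3)
    (hRL : ∀ (z : X3) (r : Fin 3 → ℝ), r ≠ 0 →
      Tendsto (fun t : ℝ => G (z + (t : ℂ) • rv r)) (cocompact ℝ) (𝓝 0))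
    (hP0 : MvPolynomial.eval 0 P = 0) (hR0 : MvPolynomial.eval 0 R = 0)
    (hRC : RC G n z P R) (r : Fin 3 → ℝ) (hr : r ≠ 0) (hrP : rv r ∈ Inv P) (hrR : rv r ∈ Inv R) :
    G z = 0 := by
  by_contra hne
  have hpos : 0 < ‖G z‖ := norm_pos_iff.2 hne
  set ε : ℝ := ‖G z‖ / (2 * (n + 1)) with hε
  have hε0 : 0 < ε := by positivity
  have h1 := (hRL z r hr).eventually (Metric.ball_mem_nhds (0:ℂ) hε0)
  rw [Filter.Eventually, mem_cocompact] at h1
  obtain ⟨K, hK, hK2⟩ := h1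
  obtain ⟨B, hB⟩ := hK.isBounded.exists_norm_le
  have hsmall : ∀ t : ℝ, B < |t| → ‖G (z + (t : ℂ) • rv r)‖ < ε := by
    intro t ht
    have : t ∈ Kᶜ := fun h => absurd (hB t h) (not_le.2 (by simpa using ht))
    have := hK2 this
    simpa using this
  set T : ℝ := |B| + 1 with hT
  have hTB : B < T := by have := le_abs_self B; linarith
  have hT0 : 0 < T := by positivity
  have memP : ∀ s : ℂ, MvPolynomial.eval (s • rv r) P = 0 := by
    intro s
    have := (Inv P).smul_mem s hrP 0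
    rwa [zero_add, hP0] at this
  have memR : ∀ s : ℂ, MvPolynomial.eval (s • rv r) R = 0 := by
    intro s
    have := (Inv R).smul_mem s hrR 0
    rwa [zero_add, hR0] at this
  obtain ⟨α, hα1, hα2⟩ := hRC (fun i => (((i : ℕ) * T : ℝ) : ℂ) • rv r) (fun i => memP _)
  -- the maximal coordinate
  obtain ⟨j, hj⟩ : ∃ j, ‖α j‖ = 1 := by
    by_contra hcon
    push Not at hcon
    have hlt : ∀ i, ‖α i‖ < 1 := fun i => lt_of_le_of_ne (hα1 ▸ norm_le_pi_norm α i) (hcon i)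
    have := (pi_norm_lt_iff (x := α) (by norm_num : (0:ℝ) < 1)).2 hlt
    rw [hα1] at this
    exact lt_irrefl _ this
  have h2 := hα2 ((-(((j : ℕ) * T : ℝ) : ℂ)) • rv r) (memR _)
  have h3 : ∀ i : Fin (n+1), G (z + (((i : ℕ) * T : ℝ) : ℂ) • rv r +
      (-(((j : ℕ) * T : ℝ) : ℂ)) • rv r) = G (z + (((((i : ℕ) : ℝ) - ((j : ℕ) : ℝ)) * T : ℝ) : ℂ) • rv r) := by
    intro i
    congr 1
    rw [add_assoc, ← add_smul]
    congr 2
    push_cast; ring
  simp only [h3] at h2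
  have h4 : α j * G z = - ∑ i ∈ Finset.univ.erase j, α i *
      G (z + (((((i : ℕ) : ℝ) - ((j : ℕ) : ℝ)) * T : ℝ) : ℂ) • rv r) := by
    rw [← Finset.add_sum_erase _ _ (Finset.mem_univ j)] at h2
    simp only [sub_self, zero_mul, Complex.ofReal_zero, zero_smul, add_zero] at h2
    linear_combination h2
  have h5 : ‖α j * G z‖ ≤ ∑ i ∈ Finset.univ.erase j, ε := by
    rw [h4, norm_neg]
    refine (norm_sum_le _ _).trans (Finset.sum_le_sum fun i hi => ?_)
    rw [norm_mul]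
    have hij : (i : ℕ) ≠ (j : ℕ) := fun h => (Finset.ne_of_mem_erase hi) (Fin.ext h)
    have habs : T ≤ |(((i : ℕ) : ℝ) - ((j : ℕ) : ℝ)) * T| := by
      rw [abs_mul, abs_of_pos hT0]
      have : (1:ℝ) ≤ |((i : ℕ) : ℝ) - ((j : ℕ) : ℝ)| := by
        have h6 : (1:ℤ) ≤ |((i : ℕ) : ℤ) - ((j : ℕ) : ℤ)| := by
          apply Int.one_le_abs
          omega
        exact_mod_cast h6
      nlinarith
    have h7 := (hsmall _ (lt_of_lt_of_le hTB habs)).le
    have h8 : ‖α i‖ ≤ 1 := hα1 ▸ norm_le_pi_norm α i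
    calc ‖α i‖ * ‖G (z + (((((i : ℕ) : ℝ) - ((j : ℕ) : ℝ)) * T : ℝ) : ℂ) • rv r)‖
        ≤ 1 * ε := mul_le_mul h8 h7 (norm_nonneg _) (by norm_num)
      _ = ε := one_mul _
  rw [norm_mul, hj, one_mul, Finset.sum_const, nsmul_eq_mul] at h5
  have hcard : ((Finset.univ.erase j).card : ℝ) ≤ n + 1 := by
    have : (Finset.univ.erase j).card ≤ n + 1 := by
      rw [Finset.card_erase_of_mem (Finset.mem_univ j)]; simp
    exact_mod_cast this
  have : ((Finset.univ.erase j).card : ℝ) * ε ≤ (n + 1) * ε :=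
    mul_le_mul_of_nonneg_right hcard hε0.le
  have h9 : ((n : ℝ) + 1) * ε = ‖G z‖ / 2 := by
    rw [hε]; field_simp
  linarith

end Pool.Agent.Ramm7c
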