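import Pool.Agent.Ramm7c.Main

set_option autoImplicit false
open Filter Topology

namespace Pool.Agent.Ramm7c

lemma sumset (P R : Poly3) (hP : P ≠ 0) (hP0 : MvPolynomial.eval 0 P = 0)
    (hR0 : MvPolynomial.eval 0 R = 0) (hW : Module.finrank ℂ ↥(Inv P ⊓ Inv R) ≤ 1) (C : ℝ)
    (hC : ∀ w, MvPolynomial.eval w P = 0 → MvPolynomial.eval (-w) R = 0 →
      ∃ w' ∈ Inv P ⊓ Inv R, ‖w - w'‖ ≤ C) (d : X3) :
    ∀ᶠ u : ℂ in 𝓝 0, ∃ v w : X3, MvPolynomial.eval v P = 0 ∧ MvPolynomial.eval w R = 0 ∧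
      v + w = u • d := by
  obtain ⟨a, ha⟩ := exists_topForm_ne_zero P hP
  have hlt : (Submodule.span ℂ {a} ⊔ (Inv P ⊓ Inv R)) < ⊤ := by
    rw [lt_top_iff_ne_top]
    intro htop
    have h1 : Module.finrank ℂ ↥(Submodule.span ℂ {a} ⊔ (Inv P ⊓ Inv R)) ≤ 2 := by
      have h2 := Submodule.finrank_add_le_finrank_add_finrank (Submodule.span ℂ {a}) (Inv P ⊓ Inv R)
      have h3 : Module.finrank ℂ ↥(Submodule.span ℂ {a}) ≤ 1 := by
        have := finrank_span_le_card (R := ℂ) ({a} : Set X3)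
        simpa using this
      omega
    rw [htop] at h1
    have h4 : Module.finrank ℂ ↥(⊤ : Submodule ℂ X3) = 3 := by
      rw [finrank_top]; simp
    omega
  obtain ⟨ℓ, hℓ, hker⟩ := Submodule.exists_le_ker_of_lt_top _ hlt
  obtain ⟨b₀, hb₀⟩ : ∃ b₀, ℓ b₀ ≠ 0 := by
    by_contra hcon
    push Not at hcon
    exact hℓ (LinearMap.ext (by simpa using hcon))
  set b : X3 := (ℓ b₀)⁻¹ • b₀ with hb
  have hℓb : ℓ b = 1 := by
    rw [hb, map_smul, smul_eq_mul, inv_mul_cancel₀ hb₀]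
  have hℓa : ℓ a = 0 := by
    have : a ∈ LinearMap.ker ℓ := hker (Submodule.mem_sup_left (Submodule.mem_span_singleton_self a))
    exact this
  have hℓW : ∀ w ∈ Inv P ⊓ Inv R, ℓ w = 0 := fun w hw => hker (Submodule.mem_sup_right hw)
  rcases elim a b 0 0 (-a) (-b) d 0 P R ha 0 0 0 (by simpa using hP0) (by simpa using hR0) with
    h | h
  · exfalso
    set L : X3 →L[ℂ] ℂ := LinearMap.toContinuousLinearMap ℓ with hL
    obtain ⟨s, hs1, hs2⟩ := h ((‖L‖ * |C| + 1 : ℝ) : ℂ)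
    simp only [smul_zero, add_zero, zero_add, zero_smul] at hs1 hs2
    obtain ⟨w', hw', hle⟩ := hC _ hs1 (by
      have : -(s • a + ((‖L‖ * |C| + 1 : ℝ) : ℂ) • b) = s • -a + ((‖L‖ * |C| + 1 : ℝ) : ℂ) • -b := by
        simp only [smul_neg]; abel
      rw [this]; exact hs2)
    have e1 : L (s • a + ((‖L‖ * |C| + 1 : ℝ) : ℂ) • b - w') = ((‖L‖ * |C| + 1 : ℝ) : ℂ) := by
      show ℓ _ = _
      rw [map_sub, map_add, map_smul, map_smul, hℓa, hℓb, hℓW w' hw']
      simp
    have e2 := L.le_opNorm (s • a + ((‖L‖ * |C| + 1 : ℝ) : ℂ) • b - w')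
    rw [e1, Complex.norm_real, Real.norm_eq_abs] at e2
    have e3 : ‖L‖ * ‖s • a + ((‖L‖ * |C| + 1 : ℝ) : ℂ) • b - w'‖ ≤ ‖L‖ * |C| :=
      mul_le_mul_of_nonneg_left (hle.trans (le_abs_self C)) (norm_nonneg _)
    have e4 := le_abs_self (‖L‖ * |C| + 1)
    linarith
  · filter_upwards [h] with u hu
    obtain ⟨s, t, h1, h2⟩ := hu
    refine ⟨_, _, h1, h2, ?_⟩
    simp only [smul_zero, add_zero, zero_add, smul_neg]
    abel

lemma shift_case (G : X3 → ℂ) (n : ℕ) (z : X3) (P R : Poly3) (hRC : RC G n z P R)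
    (c : X3) (hcP : c ∈ Inv P) (hcR : c ∈ Inv R) :
    ∃ p : Polynomial ℂ, p ≠ 0 ∧ ∀ v w : X3, MvPolynomial.eval v P = 0 →
      MvPolynomial.eval w R = 0 →
      ∑ m ∈ Finset.range (p.natDegree + 1), p.coeff m * G (z + (v + w) + (m : ℂ) • c) = 0 := by
  classical
  let Y : Type := {w : X3 // MvPolynomial.eval w R = 0}
  let g : X3 → (Y → ℂ) := fun v w => G (z + v + w.1)
  let S : Set (Y → ℂ) := g '' {v | MvPolynomial.eval v P = 0}
  obtain ⟨b, hbS, hbspan, hbli⟩ := exists_linearIndependent ℂ S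
  have hbfin : b.Finite := by
    by_contra hinf
    have hinf : b.Infinite := hinf
    obtain ⟨e⟩ : Nonempty (Fin (n+1) ↪ b) := by
      have := hinf.to_subtype
      exact ⟨(Fin.valEmbedding.trans (Infinite.natEmbedding b))⟩
    have hv : ∀ i, ∃ v, MvPolynomial.eval v P = 0 ∧ g v = (e i : Y → ℂ) := fun i => hbS (e i).2
    choose v hv1 hv2 using hv
    obtain ⟨α, hα1, hα2⟩ := hRC v hv1
    have hli := hbli.comp e e.injective
    rw [Fintype.linearIndependent_iff] at hli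
    have h0 := hli α (by
      funext w
      rw [Finset.sum_apply]
      simp only [Pi.smul_apply, smul_eq_mul, Pi.zero_apply, Function.comp_apply]
      have := hα2 w.1 w.2
      rw [← this]
      refine Finset.sum_congr rfl fun i _ => ?_
      rw [← hv2 i])
    have : α = 0 := funext h0
    rw [this, norm_zero] at hα1
    norm_num at hα1
  let V : Submodule ℂ (Y → ℂ) := Submodule.span ℂ S
  have hfd : FiniteDimensional ℂ V := by
    have : V = Submodule.span ℂ b := hbspan.symm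
    rw [this]
    exact FiniteDimensional.span_of_finite ℂ hbfin
  -- translation
  let τ : (Y → ℂ) →ₗ[ℂ] (Y → ℂ) :=
    LinearMap.funLeft ℂ ℂ (fun w : Y => (⟨w.1 + c, by rw [hcR w.1]; exact w.2⟩ : Y))
  have hτg : ∀ v, τ (g v) = g (v + c) := by
    intro v
    funext w
    show G (z + v + (w.1 + c)) = G (z + (v + c) + w.1)
    congr 1; abel
  have hτV : ∀ x ∈ V, τ x ∈ V := by
    intro x hx
    have : V ≤ V.comap τ := by
      rw [Submodule.span_le]
      rintro _ ⟨v, hv, rfl⟩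
      show τ (g v) ∈ V
      rw [hτg]
      exact Submodule.subset_span ⟨v + c, by
        show MvPolynomial.eval (v + c) P = 0
        rw [hcP v]; exact hv, rfl⟩
    exact this hx
  let T : V →ₗ[ℂ] V := τ.restrict hτV
  have hCH := LinearMap.aeval_self_charpoly T
  refine ⟨T.charpoly, (LinearMap.charpoly_monic T).ne_zero, ?_⟩
  intro v w hv hw
  have hTpow : ∀ (m : ℕ) (x : V), ((T ^ m) x : Y → ℂ) = (τ ^ m) x := by
    intro m
    induction m with
    | zero => intro x; rfl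
    | succ m ih =>
      intro x
      rw [pow_succ, pow_succ, Module.End.mul_apply, Module.End.mul_apply, ih]
      rfl
  have hτpow : ∀ (m : ℕ) (v : X3), (τ ^ m) (g v) = g (v + (m : ℂ) • c) := by
    intro m
    induction m with
    | zero => intro v; simp
    | succ m ih =>
      intro v
      rw [pow_succ, Module.End.mul_apply, hτg, ih]
      congr 1
      push_cast
      rw [add_smul, one_smul]; abel
  let x : V := ⟨g v, Submodule.subset_span ⟨v, hv, rfl⟩⟩
  have h1 : (Polynomial.aeval T T.charpoly) x = 0 := by rw [hCH]; rfl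
  rw [Polynomial.aeval_eq_sum_range] at h1
  have h2 := congrArg (fun y : V => (y : Y → ℂ) ⟨w, hw⟩) h1
  simp only [LinearMap.sum_apply, LinearMap.smul_apply, Submodule.coe_sum, Submodule.coe_smul,
    Finset.sum_apply, Pi.smul_apply, smul_eq_mul, ZeroMemClass.coe_zero, Pi.zero_apply, hTpow] at h2
  rw [← h2]
  refine Finset.sum_congr rfl fun m _ => ?_
  congr 1
  have := congrFun (hτpow m v) ⟨w, hw⟩
  rw [show ((x : V) : Y → ℂ) = g v from rfl, this]
  show _ = G (z + (v + (m : ℂ) • c) + w)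
  congr 1; abel

/-- Main claim. -/
theorem main_claim (G : X3 → ℂ) (hG : Continuous G) (n : ℕ) (z : X3)
    (hRL : ∀ (z : X3) (r : Fin 3 → ℝ), r ≠ 0 →
      Tendsto (fun t : ℝ => G (z + (t : ℂ) • rv r)) (cocompact ℝ) (𝓝 0))
    (hG3 : ∀ z d : X3, Differentiable ℂ (fun u : ℂ => G (z + u • d)))
    (hG4 : ∀ c : X3, c ≠ 0 → ∀ p : Polynomial ℂ, p ≠ 0 →
      ¬ ∀ y, ∑ m ∈ Finset.range (p.natDegree + 1), p.coeff m * G (y + (m : ℂ) • c) = 0)
    (P R : Poly3) (hP : P ≠ 0) (hR : R ≠ 0) (hP0 : MvPolynomial.eval 0 P = 0)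
    (hR0 : MvPolynomial.eval 0 R = 0) (hRC : RC G n z P R) : G z = 0 := by
  classical
  -- minimal pair
  let S : Set ℕ := {k | ∃ P R : Poly3, P ≠ 0 ∧ R ≠ 0 ∧ MvPolynomial.eval 0 P = 0 ∧
    MvPolynomial.eval 0 R = 0 ∧ RC G n z P R ∧ P.totalDegree + R.totalDegree = k}
  have hS : S.Nonempty := ⟨_, P, R, hP, hR, hP0, hR0, hRC, rfl⟩
  obtain ⟨P, R, hP, hR, hP0, hR0, hRC, hk⟩ := Nat.sInf_mem hS
  have hmin : ∀ P' R' : Poly3, P' ≠ 0 → R' ≠ 0 → MvPolynomial.eval 0 P' = 0 →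
      MvPolynomial.eval 0 R' = 0 → RC G n z P' R' →
      P.totalDegree + R.totalDegree ≤ P'.totalDegree + R'.totalDegree := by
    intro P' R' h1 h2 h3 h4 h5
    rw [hk]
    exact Nat.sInf_le ⟨P', R', h1, h2, h3, h4, h5, rfl⟩
  obtain ⟨C, hC⟩ := bmw G hG n z P R hP hR hRC hmin
  by_cases hW : 2 ≤ Module.finrank ℂ ↥(Inv P ⊓ Inv R)
  · obtain ⟨r, hr0, hr⟩ := exists_real_vector _ hW
    exact rl_case G n z P R hRL hP0 hR0 hRC r hr0 hr.1 hr.2
  · exfalso
    push Not at hW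
    -- nonzero direction
    obtain ⟨c, hc, hc0⟩ : ∃ c ∈ Inv P ⊓ Inv R, c ≠ 0 := by
      by_contra hcon
      push Not at hcon
      obtain ⟨w, hw1, hw2, hw3⟩ := unbdd P R hP hP0 hR0 C
      obtain ⟨w', hw', hle⟩ := hC w hw1 hw2
      rw [hcon w' hw', sub_zero] at hle
      linarith
    obtain ⟨p, hp0, hp⟩ := shift_case G n z P R hRC c hc.1 hc.2
    apply hG4 c hc0 p hp0
    intro y
    set d : X3 := y - z with hd
    set F1 : ℂ → ℂ := fun u => ∑ m ∈ Finset.range (p.natDegree + 1),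
      p.coeff m * G (z + u • d + (m : ℂ) • c) with hF1
    have hF1d : Differentiable ℂ F1 := by
      simp only [hF1]
      apply Differentiable.fun_sum
      intro m _
      apply Differentiable.const_mul
      have h1 := hG3 (z + (m : ℂ) • c) d
      have h2 : (fun u : ℂ => G (z + u • d + (m : ℂ) • c)) =
          fun u : ℂ => G (z + (m : ℂ) • c + u • d) := by
        funext u; congr 1; abel
      rw [h2]; exact h1
    have hnear : F1 =ᶠ[𝓝 0] (fun _ => (0:ℂ)) := by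
      filter_upwards [sumset P R hP hP0 hR0 (by omega) C hC d] with u hu
      obtain ⟨v, w, h1, h2, h3⟩ := hu
      have := hp v w h1 h2
      rw [h3] at this
      exact this
    have hzero : F1 = fun _ => (0:ℂ) := by
      have hA : AnalyticOnNhd ℂ F1 Set.univ := fun x _ => hF1d.analyticAt x
      have hB : AnalyticOnNhd ℂ (fun _ : ℂ => (0:ℂ)) Set.univ := analyticOnNhd_const
      exact hA.eq_of_eventuallyEq hB hnear
    have h1 := congrFun hzero 1
    simp only [hF1, one_smul] at h1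
    rw [← h1]
    refine Finset.sum_congr rfl fun m _ => ?_
    congr 2
    rw [hd]; abel

end Pool.Agent.Ramm7c
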