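import Mathlib

set_option autoImplicit false
open Polynomial Filter Topology

namespace Pool.Agent.Ramm7c

/-- If all roots of `p` have modulus at least `δ`, then `|p(s)| ≤ |p(0)| (1+|s|/δ)^d`. -/
lemma rootbound (p : ℂ[X]) (d : ℕ) (hd : p.natDegree ≤ d) (δ : ℝ) (hδ : 0 < δ)
    (h : ∀ r, p.eval r = 0 → δ ≤ ‖r‖) (s : ℂ) :
    ‖p.eval s‖ ≤ ‖p.eval 0‖ * (1 + ‖s‖ / δ) ^ d := by
  by_cases hp : p = 0
  · subst hp; simp
  have hs : p.Splits := IsAlgClosed.splits p
  have hfac := hs.eq_prod_roots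
  have hev : ∀ x : ℂ, ‖p.eval x‖ = ‖p.leadingCoeff‖ * (p.roots.map (fun r => ‖x - r‖)).prod := by
    intro x
    conv_lhs => rw [hfac]
    rw [eval_mul, eval_C, norm_mul, eval_multiset_prod]
    congr 1
    rw [Multiset.map_map]
    have : ∀ m : Multiset ℂ, ‖(m.map ((fun q : ℂ[X] => eval x q) ∘ fun a => X - C a)).prod‖
        = (m.map (fun r => ‖x - r‖)).prod := by
      intro m
      induction m using Multiset.induction_on with
      | empty => simp
      | cons a m ih =>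
        rw [Multiset.map_cons, Multiset.prod_cons, norm_mul, ih, Multiset.map_cons,
          Multiset.prod_cons]
        simp
    exact this _
  rw [hev s, hev 0]
  have hcard : p.roots.card ≤ d := (card_roots' p).trans hd
  have hroots : ∀ r ∈ p.roots, δ ≤ ‖r‖ := fun r hr => h r ((mem_roots hp).1 hr)
  have key : ∀ m : Multiset ℂ, (∀ r ∈ m, δ ≤ ‖r‖) →
      (m.map (fun r => ‖s - r‖)).prod ≤
        (m.map (fun r => ‖0 - r‖)).prod * (1 + ‖s‖ / δ) ^ m.card := by
    intro m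
    induction m using Multiset.induction_on with
    | empty => intro _; simp
    | cons a m ih =>
      intro hm
      have h1 := ih (fun r hr => hm r (Multiset.mem_cons_of_mem hr))
      have h2 := hm a (Multiset.mem_cons_self a m)
      simp only [Multiset.map_cons, Multiset.prod_cons, Multiset.card_cons, pow_succ]
      have h3 : ‖s - a‖ ≤ ‖0 - a‖ * (1 + ‖s‖ / δ) := by
        have : ‖s - a‖ ≤ ‖s‖ + ‖a‖ := norm_sub_le _ _
        have h4 : ‖s‖ ≤ ‖a‖ * (‖s‖ / δ) := by
          rw [mul_div_assoc', le_div_iff₀ hδ]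
          nlinarith [norm_nonneg s]
        simp only [zero_sub, norm_neg]
        nlinarith
      have h5 : 0 ≤ (m.map (fun r => ‖s - r‖)).prod :=
        Multiset.prod_nonneg (by intro x hx; obtain ⟨r, _, rfl⟩ := Multiset.mem_map.1 hx; positivity)
      calc ‖s - a‖ * (m.map (fun r => ‖s - r‖)).prod
          ≤ (‖0 - a‖ * (1 + ‖s‖ / δ)) *
            ((m.map (fun r => ‖0 - r‖)).prod * (1 + ‖s‖ / δ) ^ m.card) := by
            apply mul_le_mul h3 h1 h5 (by positivity)
        _ = _ := by ring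
  have hk := key p.roots hroots
  have h0 : 0 ≤ (p.roots.map (fun r => ‖0 - r‖)).prod :=
    Multiset.prod_nonneg (by intro x hx; obtain ⟨r, _, rfl⟩ := Multiset.mem_map.1 hx; positivity)
  have hpow : (1 + ‖s‖ / δ) ^ p.roots.card ≤ (1 + ‖s‖ / δ) ^ d :=
    pow_le_pow_right₀ (by have : 0 ≤ ‖s‖ / δ := by positivity
                          linarith) hcard
  calc ‖p.leadingCoeff‖ * (p.roots.map (fun r => ‖s - r‖)).prod
      ≤ ‖p.leadingCoeff‖ * ((p.roots.map (fun r => ‖0 - r‖)).prod * (1 + ‖s‖ / δ) ^ d) := by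
        gcongr
        exact hk.trans (mul_le_mul_of_nonneg_left hpow h0)
    _ = _ := by ring

/-- Persistence of roots, in filter form. -/
lemma root_persist {ι : Type*} (l : Filter ι) (p : ι → ℂ[X]) (d : ℕ)
    (hd : ∀ᶠ i in l, (p i).natDegree ≤ d) (s : ℂ) (a : ℂ) (ha : a ≠ 0)
    (h0 : Tendsto (fun i => (p i).eval 0) l (𝓝 0))
    (hs : Tendsto (fun i => (p i).eval s) l (𝓝 a)) (δ : ℝ) (hδ : 0 < δ) :
    ∀ᶠ i in l, ∃ r : ℂ, ‖r‖ < δ ∧ (p i).eval r = 0 := by
  have h1 : Tendsto (fun i => ‖(p i).eval 0‖ * (1 + ‖s‖ / δ) ^ d) l (𝓝 0) := by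
    simpa using h0.norm.mul_const ((1 + ‖s‖ / δ) ^ d)
  have h2 : Tendsto (fun i => ‖(p i).eval s‖) l (𝓝 ‖a‖) := hs.norm
  have h3 : ∀ᶠ i in l, ‖(p i).eval 0‖ * (1 + ‖s‖ / δ) ^ d < ‖(p i).eval s‖ := by
    have ha' : 0 < ‖a‖ := norm_pos_iff.2 ha
    have e1 := h1.eventually (gt_mem_nhds (show (0:ℝ) < ‖a‖ / 2 by positivity))
    have e2 := h2.eventually (lt_mem_nhds (show ‖a‖ / 2 < ‖a‖ by linarith))
    filter_upwards [e1, e2] with i hi1 hi2
    linarith
  filter_upwards [hd, h3] with i hi1 hi2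
  by_contra hcon
  push Not at hcon
  have := rootbound (p i) d hi1 δ hδ (fun r hr => by
    by_contra hlt
    push Not at hlt
    exact hcon r hlt hr) s
  linarith

end Pool.Agent.Ramm7c
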