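import Pool.Agent.Ramm7c.Haus

set_option autoImplicit false
open Filter Topology MeasureTheory

namespace Pool.Agent.Ramm7c

lemma exists_unit_relation (n : ℕ) (c : Fin (n+1) → (Fin n → ℂ)) :
    ∃ α : Fin (n+1) → ℂ, ‖α‖ = 1 ∧ ∀ k, ∑ i, α i * c i k = 0 := by
  have h : ¬ LinearIndependent ℂ c := by
    intro hl
    have := hl.fintype_card_le_finrank
    simp at this
  rw [Fintype.not_linearIndependent_iff] at h
  obtain ⟨g, hg, i, hi⟩ := h
  have hg0 : g ≠ 0 := fun h0 => hi (by rw [h0]; rfl)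
  have hn : ‖g‖ ≠ 0 := norm_ne_zero_iff.2 hg0
  refine ⟨((‖g‖⁻¹ : ℝ) : ℂ) • g, ?_, fun k => ?_⟩
  · rw [norm_smul, Complex.norm_real, norm_inv, norm_norm, inv_mul_cancel₀ hn]
  · have := congrFun hg k
    simp only [Finset.sum_apply, Pi.smul_apply, smul_eq_mul, Pi.zero_apply] at this
    simp only [Pi.smul_apply, smul_eq_mul, mul_assoc]
    rw [← Finset.mul_sum, this, mul_zero]

lemma step0 {E : Type*} [MetricSpace E] [ProperSpace E] [MeasurableSpace E] [BorelSpace E]
    (m₁ m₂ : Measure E) [IsFiniteMeasure m₁] (V₁ V₂ : Set E)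
    (h1 : ∀ v ∈ V₁, ∀ r : ℝ, 0 < r → m₁ (Metric.ball v r) ≠ 0)
    (h2 : ∀ w ∈ V₂, ∀ r : ℝ, 0 < r → m₂ (Metric.ball w r) ≠ 0)
    (K : E → E → ℂ) (hK : Continuous (fun p : E × E => K p.1 p.2))
    (n : ℕ) (g : Fin n → E → ℂ)
    (H : ∀ h : E → ℂ, MemLp h 2 m₁ → ∃ c : Fin n → ℂ,
      (fun w => ∫ u, h u * K u w ∂m₁) =ᵐ[m₂] fun w => ∑ k, c k * g k w)
    (v : Fin (n+1) → E) (hv : ∀ i, v i ∈ V₁) :
    ∃ α : Fin (n+1) → ℂ, ‖α‖ = 1 ∧ ∀ w ∈ V₂, ∑ i, α i * K (v i) w = 0 := by
  -- averages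
  set ε : ℕ → ℝ := fun k => 1 / ((k:ℝ) + 1) with hε
  have hεpos : ∀ k, 0 < ε k := fun k => by simp only [hε]; positivity
  have hεt : Tendsto ε atTop (𝓝 0) := tendsto_one_div_add_atTop_nhds_zero_nat
  set B : ℕ → Fin (n+1) → Set E := fun k i => Metric.ball (v i) (ε k) with hB
  have hBm : ∀ k i, MeasurableSet (B k i) := fun k i => measurableSet_ball
  set hh : ℕ → Fin (n+1) → E → ℂ := fun k i =>
    (B k i).indicator (fun _ => (((m₁.real (B k i))⁻¹ : ℝ) : ℂ)) with hhh
  have hmem : ∀ k i, MemLp (hh k i) 2 m₁ := fun k i => by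
    apply memLp_indicator_const _ (hBm k i)
    right
    exact measure_ne_top _ _
  have hav : ∀ k i w, ∫ u, hh k i u * K u w ∂m₁ = ⨍ u in B k i, K u w ∂m₁ := by
    intro k i w
    rw [setAverage_eq]
    have : (fun u => hh k i u * K u w) =
        (B k i).indicator (fun u => (((m₁.real (B k i))⁻¹ : ℝ) : ℂ) * K u w) := by
      funext u
      by_cases hu : u ∈ B k i
      · simp only [hhh, Set.indicator_of_mem hu]
      · simp only [hhh, Set.indicator_of_notMem hu, zero_mul]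
    rw [this, integral_indicator (hBm k i), integral_const_mul, Complex.real_smul]
  choose c hc using fun k i => H (hh k i) (hmem k i)
  choose α hα1 hα2 using fun k => exists_unit_relation n (c k)
  have hae : ∀ k, ∀ᵐ w ∂m₂, ∑ i, α k i * (⨍ u in B k i, K u w ∂m₁) = 0 := by
    intro k
    have h3 := ae_all_iff.2 (hc k)
    filter_upwards [h3] with w hw
    have : ∀ i, (⨍ u in B k i, K u w ∂m₁) = ∑ l, c k i l * g l w := fun i => by
      rw [← hav, hw i]
    simp only [this, Finset.mul_sum]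
    rw [Finset.sum_comm]
    apply Finset.sum_eq_zero
    intro l _
    simp only [← mul_assoc]
    rw [← Finset.sum_mul, hα2 k l, zero_mul]
  obtain ⟨α', hα'1, ψ, hψ, hψ2⟩ := (isCompact_sphere (0 : Fin (n+1) → ℂ) 1).tendsto_subseq
    (fun j => by simpa using hα1 j : ∀ j, α j ∈ Metric.sphere (0 : Fin (n+1) → ℂ) 1)
  refine ⟨α', by simpa using hα'1, fun w hw => ?_⟩
  have hex : ∀ j, ∃ w', dist w' w < ε j ∧
      ∑ i, α (ψ j) i * (⨍ u in B (ψ j) i, K u w' ∂m₁) = 0 := by
    intro j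
    have h3 : ∃ᵐ w' ∂m₂, w' ∈ Metric.ball w (ε j) := by
      rw [frequently_ae_mem_iff]
      exact h2 w hw (ε j) (hεpos j)
    obtain ⟨w', hw'1, hw'2⟩ := (h3.and_eventually (hae (ψ j))).exists
    exact ⟨w', hw'1, hw'2⟩
  choose w' hw'1 hw'2 using hex
  have hwt : Tendsto w' atTop (𝓝 w) := by
    rw [tendsto_iff_dist_tendsto_zero]
    exact squeeze_zero (fun _ => dist_nonneg) (fun j => (hw'1 j).le) hεt
  have hlim : ∀ i, Tendsto (fun j => ⨍ u in B (ψ j) i, K u (w' j) ∂m₁) atTop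
      (𝓝 (K (v i) w)) := by
    intro i
    rw [Metric.tendsto_nhds]
    intro δ hδ
    have hcont := hK.continuousAt (x := (v i, w))
    have h3 := Metric.tendsto_nhds.1 hcont (δ/2) (by positivity)
    rw [nhds_prod_eq] at h3
    obtain ⟨U, hU, V, hV, hUV⟩ := mem_prod_iff.1 h3
    obtain ⟨η, hη, hball⟩ := Metric.mem_nhds_iff.1 hU
    have e1 : ∀ᶠ j in atTop, ε (ψ j) < η :=
      (hεt.comp hψ.tendsto_atTop).eventually (gt_mem_nhds hη)
    filter_upwards [e1, hwt.eventually hV] with j hj1 hj2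
    have h4 : (⨍ u in B (ψ j) i, K u (w' j) ∂m₁) ∈ Metric.closedBall (K (v i) w) (δ/2) := by
      apply (convex_closedBall (K (v i) w) (δ/2)).set_average_mem Metric.isClosed_closedBall
      · exact h1 (v i) (hv i) _ (hεpos _)
      · exact measure_ne_top _ _
      · rw [ae_restrict_iff' (hBm _ _)]
        refine Eventually.of_forall fun u hu => ?_
        have h5 : (u, w' j) ∈ U ×ˢ V := by
          refine ⟨hball ?_, hj2⟩
          exact Metric.ball_subset_ball hj1.le hu
        have h6 := hUV h5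
        rw [Metric.mem_closedBall]
        exact le_of_lt h6
      · have h7 : IntegrableOn (fun u => K u (w' j)) (Metric.closedBall (v i) (ε (ψ j))) m₁ := by
          apply ContinuousOn.integrableOn_compact (isCompact_closedBall _ _)
          apply Continuous.continuousOn
          exact hK.comp (by fun_prop : Continuous fun u => (u, w' j))
        exact h7.mono_set Metric.ball_subset_closedBall
    rw [Metric.mem_closedBall] at h4
    linarith
  have hfin : Tendsto (fun j => ∑ i, α (ψ j) i * (⨍ u in B (ψ j) i, K u (w' j) ∂m₁)) atTop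
      (𝓝 (∑ i, α' i * K (v i) w)) := by
    apply tendsto_finsetSum
    intro i _
    apply Tendsto.mul _ (hlim i)
    exact (tendsto_pi_nhds.1 hψ2) i
  simp only [hw'2] at hfin
  exact tendsto_nhds_unique hfin tendsto_const_nhds

end Pool.Agent.Ramm7c
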