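import Pool.Agent.Ramm7c.Step0

set_option autoImplicit false
open Filter Topology MeasureTheory

namespace Pool.Agent.Ramm7c

noncomputable def gradL (P : Poly3) (x : X3) : X3 →L[ℂ] ℂ :=
  ∑ i, MvPolynomial.eval x (MvPolynomial.pderiv i P) • (ContinuousLinearMap.proj i : X3 →L[ℂ] ℂ)

lemma gradL_apply (P : Poly3) (x v : X3) :
    gradL P x v = ∑ i, MvPolynomial.eval x (MvPolynomial.pderiv i P) * v i := by
  simp [gradL]

lemma hasStrictFDerivAt_eval (P : Poly3) (x : X3) :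
    HasStrictFDerivAt (fun v : X3 => MvPolynomial.eval v P) (gradL P x) x := by
  induction P using MvPolynomial.induction_on with
  | C a =>
    simp only [MvPolynomial.eval_C]
    have : gradL (MvPolynomial.C a) x = 0 := by
      ext v
      rw [gradL_apply]; simp
    rw [this]
    exact hasStrictFDerivAt_const a x
  | add p q hp hq =>
    simp only [map_add]
    have : gradL (p + q) x = gradL p x + gradL q x := by
      ext v
      rw [add_apply, gradL_apply, gradL_apply, gradL_apply,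
        ← Finset.sum_add_distrib]
      refine Finset.sum_congr rfl fun i _ => ?_
      rw [map_add, map_add, add_mul]
    rw [this]
    exact hp.add hq
  | mul_X p i hp =>
    simp only [map_mul, MvPolynomial.eval_X]
    have hi : HasStrictFDerivAt (fun v : X3 => v i) (ContinuousLinearMap.proj i : X3 →L[ℂ] ℂ) x :=
      (ContinuousLinearMap.proj i : X3 →L[ℂ] ℂ).hasStrictFDerivAt
    have h := hp.mul hi
    have hd : gradL (p * MvPolynomial.X i) x = (MvPolynomial.eval x) p •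
        (ContinuousLinearMap.proj i : X3 →L[ℂ] ℂ) + x i • gradL p x := ?_
    · rw [hd]; exact h
    ext v
    rw [gradL_apply]
    simp only [add_apply, smul_apply, smul_eq_mul,
      ContinuousLinearMap.proj_apply, gradL_apply]
    simp only [Derivation.leibniz, smul_eq_mul, map_add, map_mul, MvPolynomial.eval_X,
      MvPolynomial.pderiv_X, add_mul, Finset.sum_add_distrib, Finset.mul_sum]
    congr 1
    · rw [Finset.sum_eq_single i]
      · simp
      · intro j _ hj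
        rw [Pi.single_eq_of_ne (Ne.symm hj)]; simp
      · intro h; exact absurd (Finset.mem_univ i) h
    · refine Finset.sum_congr rfl fun j _ => by ring

lemma surj_two (f g : X3 →L[ℂ] ℂ) (h : ∀ a b : ℂ, (∀ v, a * f v + b * g v = 0) → a = 0 ∧ b = 0)
    (s t : ℂ) : ∃ v, f v = s ∧ g v = t := by
  let T : X3 →ₗ[ℂ] ℂ × ℂ := (f : X3 →ₗ[ℂ] ℂ).prod (g : X3 →ₗ[ℂ] ℂ)
  have hT : LinearMap.range T = ⊤ := by
    by_contra hne
    obtain ⟨φ, hφ, hle⟩ := Submodule.exists_le_ker_of_lt_top _ (lt_top_iff_ne_top.2 hne)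
    have hφ2 : ∀ s t : ℂ, φ (s, t) = φ (1, 0) * s + φ (0, 1) * t := by
      intro s t
      have : ((s, t) : ℂ × ℂ) = s • (1, 0) + t • (0, 1) := by simp
      rw [this, map_add, map_smul, map_smul, smul_eq_mul, smul_eq_mul]; ring
    obtain ⟨h1, h2⟩ := h (φ (1, 0)) (φ (0, 1)) (fun v => by
      have h3 : T v ∈ LinearMap.ker φ := hle (LinearMap.mem_range_self T v)
      rw [LinearMap.mem_ker] at h3
      rw [← hφ2]; exact h3)
    apply hφ
    ext
    · simpa using h1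
    · simpa using h2
  have : (s, t) ∈ LinearMap.range T := by rw [hT]; trivial
  obtain ⟨v, hv⟩ := this
  exact ⟨v, congrArg Prod.fst hv, congrArg Prod.snd hv⟩

lemma transv (Q₁ Q₂ : Poly3) (p₁ p₂ : X3) (h₁ : MvPolynomial.eval p₁ Q₁ = 0)
    (h₂ : MvPolynomial.eval p₂ Q₂ = 0)
    (hli : LinearIndependent ℂ ![fun i : Fin 3 => MvPolynomial.eval p₁ (MvPolynomial.pderiv i Q₁),
      fun i : Fin 3 => MvPolynomial.eval p₂ (MvPolynomial.pderiv i Q₂)])
    (U₁ U₂ : Set X3) (hU₁ : U₁ ∈ 𝓝 p₁) (hU₂ : U₂ ∈ 𝓝 p₂) :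
    ∀ᶠ y in 𝓝 (p₁ + p₂), ∃ v ∈ U₁, ∃ w ∈ U₂, MvPolynomial.eval v Q₁ = 0 ∧
      MvPolynomial.eval w Q₂ = 0 ∧ v + w = y := by
  have hind : ∀ a b : ℂ, (∀ v, a * gradL Q₁ p₁ v + b * gradL Q₂ p₂ v = 0) → a = 0 ∧ b = 0 := by
    intro a b hab
    have h3 := (LinearIndependent.pair_iff.1 hli) a b (by
      funext i
      have := hab (Pi.single i 1)
      rw [gradL_apply, gradL_apply] at this
      simpa [Pi.single_apply] using this)
    exact h3
  let Φ : X3 × X3 → ℂ × ℂ × X3 := fun q =>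
    (MvPolynomial.eval q.1 Q₁, MvPolynomial.eval q.2 Q₂, q.1 + q.2)
  let A : X3 × X3 →L[ℂ] X3 := ContinuousLinearMap.fst ℂ X3 X3
  let B : X3 × X3 →L[ℂ] X3 := ContinuousLinearMap.snd ℂ X3 X3
  let Φ' : X3 × X3 →L[ℂ] ℂ × ℂ × X3 :=
    ((gradL Q₁ p₁).comp A).prod (((gradL Q₂ p₂).comp B).prod (A + B))
  have hΦ : HasStrictFDerivAt Φ Φ' (p₁, p₂) := by
    have hA : HasStrictFDerivAt (fun q : X3 × X3 => q.1) A (p₁, p₂) := hasStrictFDerivAt_fst
    have hB : HasStrictFDerivAt (fun q : X3 × X3 => q.2) B (p₁, p₂) := hasStrictFDerivAt_snd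
    have e1 : HasStrictFDerivAt (fun q : X3 × X3 => MvPolynomial.eval q.1 Q₁)
        ((gradL Q₁ p₁).comp A) (p₁, p₂) := (hasStrictFDerivAt_eval Q₁ p₁).comp (p₁, p₂) hA
    have e2 : HasStrictFDerivAt (fun q : X3 × X3 => MvPolynomial.eval q.2 Q₂)
        ((gradL Q₂ p₂).comp B) (p₁, p₂) := (hasStrictFDerivAt_eval Q₂ p₂).comp (p₁, p₂) hB
    exact e1.prodMk (e2.prodMk (hA.add hB))
  have hsurj : Φ'.range = ⊤ := by
    rw [LinearMap.range_eq_top]
    rintro ⟨s, t, y⟩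
    obtain ⟨v, hv1, hv2⟩ := surj_two (gradL Q₁ p₁) (gradL Q₂ p₂) hind s (gradL Q₂ p₂ y - t)
    refine ⟨(v, y - v), ?_⟩
    show (gradL Q₁ p₁ v, gradL Q₂ p₂ (y - v), v + (y - v)) = (s, t, y)
    rw [map_sub, hv1, hv2]
    simp
  have hmap := hΦ.map_nhds_eq_of_surj hsurj
  have hval : Φ (p₁, p₂) = (0, 0, p₁ + p₂) := by
    simp only [Φ, h₁, h₂]
  have h5 : Φ '' (U₁ ×ˢ U₂) ∈ 𝓝 ((0 : ℂ), (0 : ℂ), p₁ + p₂) := by
    rw [← hval, ← hmap]
    exact image_mem_map (prod_mem_nhds hU₁ hU₂)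
  have h6 : Tendsto (fun y : X3 => ((0 : ℂ), (0 : ℂ), y)) (𝓝 (p₁ + p₂))
      (𝓝 ((0 : ℂ), (0 : ℂ), p₁ + p₂)) := by
    apply Continuous.tendsto
    fun_prop
  filter_upwards [h6.eventually h5] with y hy
  obtain ⟨⟨v, w⟩, ⟨hvU, hwU⟩, hvw⟩ := hy
  simp only [Φ, Prod.mk.injEq] at hvw
  exact ⟨v, hvU, w, hwU, hvw.1, hvw.2.1, hvw.2.2⟩

end Pool.Agent.Ramm7c
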