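import Pool.Agent.Ramm7c.Elim

set_option autoImplicit false
open Filter Topology

namespace Pool.Agent.Ramm7c

lemma continuous_evalP (P : Poly3) : Continuous (fun w : X3 => MvPolynomial.eval w P) :=
  MvPolynomial.continuous_eval P

/-- complete a nonzero vector to a coordinate system -/
lemma exists_coords (a : X3) (ha : a ≠ 0) :
    ∃ (b c : X3) (ℓs ℓb ℓc : X3 →L[ℂ] ℂ), ∀ w : X3, w = ℓs w • a + ℓb w • b + ℓc w • c ∧
      (∀ s t u : ℂ, ℓb (s • a + t • b + u • c) = t ∧ ℓc (s • a + t • b + u • c) = u) := by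
  obtain ⟨i, hi⟩ := Function.ne_iff.1 ha
  simp only [Pi.zero_apply] at hi
  have hproj : ∀ j : Fin 3, ∃ f : X3 →L[ℂ] ℂ, ∀ w, f w = w j := fun j =>
    ⟨ContinuousLinearMap.proj j, fun w => rfl⟩
  obtain ⟨f0, hf0⟩ := hproj i
  obtain ⟨f1, hf1⟩ := hproj (i+1)
  obtain ⟨f2, hf2⟩ := hproj (i+2)
  refine ⟨Pi.single (i+1) 1, Pi.single (i+2) 1, (a i)⁻¹ • f0,
    f1 - (a (i+1) * (a i)⁻¹) • f0, f2 - (a (i+2) * (a i)⁻¹) • f0, ?_⟩
  intro w
  constructor
  · funext j
    simp only [Pi.add_apply, Pi.smul_apply, smul_eq_mul, FunLike.coe_sub, FunLike.coe_smul,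
      Pi.sub_apply, hf0, hf1, hf2]
    fin_cases i <;> fin_cases j <;> simp at hi ⊢ <;> field_simp <;> ring
  · intro s t u
    simp only [Pi.add_apply, Pi.smul_apply, smul_eq_mul, FunLike.coe_sub, FunLike.coe_smul,
      Pi.sub_apply, hf0, hf1, hf2]
    constructor
    · fin_cases i <;> simp at hi ⊢ <;> field_simp <;> ring
    · fin_cases i <;> simp at hi ⊢ <;> field_simp <;> ring

lemma topForm_zero (P : Poly3) (hP : P ≠ 0) (h0 : MvPolynomial.eval 0 P = 0) :
    topForm P 0 = 0 := by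
  have hd : P.totalDegree ≠ 0 := by
    intro h
    rw [MvPolynomial.totalDegree_eq_zero_iff_eq_C] at h
    rw [h] at h0
    simp only [MvPolynomial.eval_C] at h0
    rw [h0] at h
    exact hP (by simpa using h)
  rw [topForm, MvPolynomial.eval_zero, MvPolynomial.constantCoeff_eq,
    MvPolynomial.coeff_homogeneousComponent, if_neg]
  intro h
  apply hd
  rw [← h]; simp

/-- Two polynomials in three variables with a common zero have an unbounded common zero set. -/
lemma unbdd (P R : Poly3) (hP : P ≠ 0) (hP0 : MvPolynomial.eval 0 P = 0)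
    (hR0 : MvPolynomial.eval 0 R = 0) (M : ℝ) :
    ∃ w : X3, MvPolynomial.eval w P = 0 ∧ MvPolynomial.eval (-w) R = 0 ∧ M < ‖w‖ := by
  by_contra hcon
  push Not at hcon
  obtain ⟨a, ha⟩ := exists_topForm_ne_zero P hP
  have ha0 : a ≠ 0 := by
    rintro rfl
    exact ha (topForm_zero P hP hP0)
  obtain ⟨b, c, ℓs, ℓb, ℓc, hℓ⟩ := exists_coords a ha0
  set Z : Set X3 := {w | MvPolynomial.eval w P = 0 ∧ MvPolynomial.eval (-w) R = 0} with hZ
  have hZc : IsCompact Z := by
    apply Metric.isCompact_of_isClosed_isBounded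
    · apply IsClosed.inter
      · exact isClosed_singleton.preimage (continuous_evalP P)
      · exact isClosed_singleton.preimage ((continuous_evalP R).comp continuous_neg)
    · rw [isBounded_iff_forall_norm_le]
      exact ⟨M, fun w hw => hcon w hw.1 hw.2⟩
  set U : Set ℂ := ℓc '' Z with hU
  have hUc : IsCompact U := hZc.image ℓc.continuous
  have h0U : (0:ℂ) ∈ U := ⟨0, ⟨hP0, by simpa using hR0⟩, by simp⟩
  have hUo : IsOpen U := by
    rw [isOpen_iff_mem_nhds]
    rintro u₀ ⟨w, hw, rfl⟩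
    have hw1 := (hℓ w).1
    have key := elim a b c 0 (-a) (-b) (-c) 0 P R ha (ℓs w) (ℓb w) (ℓc w)
      (by rw [zero_add, ← hw1]; exact hw.1)
      (by
        have : (0 : X3) + ℓs w • -a + ℓb w • -b + ℓc w • -c = -w := by
          conv_rhs => rw [hw1]
          simp only [smul_neg]; abel
        rw [this]; exact hw.2)
    rcases key with h | h
    · exfalso
      -- unbounded in t
      obtain ⟨K, hK0, hK⟩ : ∃ K : ℝ, 0 ≤ K ∧ ∀ w : X3, ‖ℓb w‖ ≤ K * ‖w‖ :=
        ⟨‖ℓb‖, norm_nonneg _, fun w => ℓb.le_opNorm w⟩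
      obtain ⟨s, hs1, hs2⟩ := h ((K * |M| + 1 : ℝ) : ℂ)
      rw [zero_add] at hs1 hs2
      have e1 := (hℓ 0).2 s ((K * |M| + 1 : ℝ) : ℂ) (ℓc w)
      have e2 := hcon _ hs1 (by
        have : -(s • a + ((K * |M| + 1 : ℝ) : ℂ) • b + ℓc w • c) =
          s • -a + ((K * |M| + 1 : ℝ) : ℂ) • -b + ℓc w • -c := by
            simp only [smul_neg]; abel
        rw [this]; exact hs2)
      have e3 := hK (s • a + ((K * |M| + 1 : ℝ) : ℂ) • b + ℓc w • c)
      rw [e1.1, Complex.norm_real, Real.norm_eq_abs] at e3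
      have e4 : K * ‖s • a + ((K * |M| + 1 : ℝ) : ℂ) • b + ℓc w • c‖ ≤ K * |M| :=
        mul_le_mul_of_nonneg_left (e2.trans (le_abs_self M)) hK0
      have e5 : K * |M| + 1 ≤ |K * |M| + 1| := le_abs_self _
      linarith
    · filter_upwards [h] with u hu
      obtain ⟨s, t, h1, h2⟩ := hu
      rw [zero_add] at h1 h2
      refine ⟨s • a + t • b + u • c, ⟨h1, ?_⟩, ((hℓ 0).2 s t u).2⟩
      have : -(s • a + t • b + u • c) = s • -a + t • -b + u • -c := by
        simp only [smul_neg]; abel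
      rw [this]; exact h2
  have hUuniv : U = Set.univ := IsClopen.eq_univ ⟨hUc.isClosed, hUo⟩ ⟨0, h0U⟩
  rw [hUuniv] at hUc
  exact noncompact_univ ℂ hUc

end Pool.Agent.Ramm7c
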